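import Mathlib

set_option autoImplicit false

namespace Pool.Agent.Lib.MP_623d7d_al

theorem asym_binom (D z : ℝ) (hD : 0 ≤ D) (hz : 0 ≤ z) (k : ℕ) :
    ((k : ℝ) + 2) * ((k : ℝ) + 1) / 2 * z ^ 2 * D ^ k ≤
      D ^ (k + 2) + ((k : ℝ) + 2) * z * (D + z) ^ (k + 1) - (D + z) ^ (k + 2) := by
  induction k with
  | zero =>
    apply le_of_eq
    norm_num
    ring
  | succ k ih =>
    have h1 : D ^ (k + 1) ≤ (D + z) ^ (k + 1) := pow_le_pow_left₀ hD (by linarith) _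
    have h2 := mul_le_mul_of_nonneg_left ih hD
    have h3 : ((k : ℝ) + 2) * z ^ 2 * D ^ (k + 1) ≤ ((k : ℝ) + 2) * z ^ 2 * (D + z) ^ (k + 1) :=
      mul_le_mul_of_nonneg_left h1 (by positivity)
    have e1 : D ^ (k + 1 + 2) + (((k + 1 : ℕ) : ℝ) + 2) * z * (D + z) ^ (k + 1 + 1) -
        (D + z) ^ (k + 1 + 2) = D * (D ^ (k + 2) + ((k : ℝ) + 2) * z * (D + z) ^ (k + 1) -
        (D + z) ^ (k + 2)) + ((k : ℝ) + 2) * z ^ 2 * (D + z) ^ (k + 1) := by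
      push_cast
      ring
    have e2 : (((k + 1 : ℕ) : ℝ) + 2) * (((k + 1 : ℕ) : ℝ) + 1) / 2 * z ^ 2 * D ^ (k + 1) =
        D * (((k : ℝ) + 2) * ((k : ℝ) + 1) / 2 * z ^ 2 * D ^ k) +
        ((k : ℝ) + 2) * z ^ 2 * D ^ (k + 1) := by
      push_cast
      ring
    rw [e1, e2]
    linarith

theorem asym (l m n d : ℕ) (hm : 0 < m) (hml : m ∣ l) (h4 : 4 * m ≤ l) (hn : 2 ≤ n)
    (h : ((l * (n - 1) + 2 * (l / m) - 1) ^ n - (l * (n - 1) + l / m - 2) ^ n)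
      + n * ((l / m - 3) * (l * (n - 1) + l / m - 2) ^ (n - 1))
      + (l * (n - 1) + 1) ^ n ≤ d) :
    (1 + Real.exp (-4) * (((l / m : ℕ) : ℝ) - 3) ^ 2 / (4 * (l : ℝ) ^ 2))
      * ((l : ℝ) * ((n : ℝ) - 1) + 2 * ((l : ℝ) / m) - 1) ^ n ≤ (d : ℝ) := by
  obtain ⟨q, rfl⟩ := hml
  have hq4 : 4 ≤ q := by
    have : m * 4 ≤ m * q := by linarith
    exact Nat.le_of_mul_le_mul_left this hm
  obtain ⟨k, rfl⟩ : ∃ k, n = k + 2 := ⟨n - 2, by omega⟩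
  have hdiv : m * q / m = q := Nat.mul_div_cancel_left q hm
  rw [hdiv] at h ⊢
  have hmR : (0 : ℝ) < m := by exact_mod_cast hm
  have hdivR : ((m * q : ℕ) : ℝ) / m = q := by
    push_cast
    field_simp
  rw [hdivR]
  set l : ℕ := m * q with hl
  have hql : q ≤ l := by
    rw [hl]
    exact Nat.le_mul_of_pos_left q hm
  have hk1 : k + 2 - 1 = k + 1 := by omega
  rw [hk1] at h
  obtain ⟨z, rfl⟩ : ∃ z, q = z + 3 := ⟨q - 3, by omega⟩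
  set D : ℕ := l * (k + 1) + 1 with hD
  have e1 : l * (k + 1) + 2 * (z + 3) - 1 = D + (2 * z + 4) := by omega
  have e2 : l * (k + 1) + (z + 3) - 2 = D + z := by omega
  have e3 : z + 3 - 3 = z := by omega
  rw [e1, e2, e3] at h
  have hle : (D + z) ^ (k + 2) ≤ (D + (2 * z + 4)) ^ (k + 2) :=
    Nat.pow_le_pow_left (by omega) _
  have hR : (((D : ℝ) + (2 * z + 4)) ^ (k + 2) - ((D : ℝ) + z) ^ (k + 2)) +
      ((k : ℝ) + 2) * (z * ((D : ℝ) + z) ^ (k + 1)) + (D : ℝ) ^ (k + 2) ≤ d := by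
    have := (Nat.cast_le (α := ℝ)).2 h
    push_cast [Nat.cast_sub hle] at this
    linarith
  have hb := asym_binom (D : ℝ) (z : ℝ) (Nat.cast_nonneg _) (Nat.cast_nonneg _) k
  have eN : ((l : ℝ) * (((k + 2 : ℕ) : ℝ) - 1) + 2 * ((z + 3 : ℕ) : ℝ) - 1) =
      (D : ℝ) + (2 * z + 4) := by
    rw [hD]
    push_cast
    ring
  have eq3 : (((z + 3 : ℕ) : ℝ) - 3) = z := by
    push_cast
    ring
  rw [eN, eq3]
  have hl1 : (1 : ℝ) ≤ l := by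
    have : 1 ≤ l := by omega
    exact_mod_cast this
  have hzl : (z : ℝ) + 3 ≤ l := by exact_mod_cast hql
  have hDR : (D : ℝ) = l * (k + 1) + 1 := by
    rw [hD]
    push_cast
    ring
  have hDpos : (0 : ℝ) < D := by
    rw [hDR]
    positivity
  have hk0 : (0 : ℝ) ≤ k := Nat.cast_nonneg k
  -- the exponential bound
  have hexp : ((D : ℝ) + (2 * z + 4)) ^ (k + 2) ≤ Real.exp 4 * (D : ℝ) ^ (k + 2) := by
    have h1 : (D : ℝ) + (2 * z + 4) ≤ Real.exp ((2 * z + 4) / D) * D := by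
      have h2 := Real.add_one_le_exp ((2 * (z : ℝ) + 4) / D)
      have h3 := mul_le_mul_of_nonneg_right h2 hDpos.le
      rw [add_mul, div_mul_cancel₀ _ hDpos.ne', one_mul] at h3
      linarith
    have h2 : ((D : ℝ) + (2 * z + 4)) ^ (k + 2) ≤ (Real.exp ((2 * z + 4) / D) * D) ^ (k + 2) :=
      pow_le_pow_left₀ (by positivity) h1 _
    refine h2.trans ?_
    rw [mul_pow, ← Real.exp_nat_mul]
    apply mul_le_mul_of_nonneg_right _ (by positivity)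
    apply Real.exp_le_exp.2
    rw [mul_div_assoc', div_le_iff₀ hDpos, hDR]
    push_cast
    nlinarith
  have hexp' : Real.exp (-4) * ((D : ℝ) + (2 * z + 4)) ^ (k + 2) ≤ (D : ℝ) ^ (k + 2) := by
    have h1 := mul_le_mul_of_nonneg_left hexp (Real.exp_nonneg (-4))
    rw [← mul_assoc, ← Real.exp_add] at h1
    norm_num at h1
    exact h1
  have hsq : (D : ℝ) ^ 2 ≤ 2 * (l : ℝ) ^ 2 * ((k + 2) * (k + 1)) := by
    have h1 : (D : ℝ) ≤ l * (k + 2) := by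
      rw [hDR]
      nlinarith
    have h2 : (D : ℝ) ^ 2 ≤ (l * (k + 2)) ^ 2 := pow_le_pow_left₀ hDpos.le h1 2
    have h3 : ((l : ℝ) * (k + 2)) ^ 2 ≤ 2 * (l : ℝ) ^ 2 * ((k + 2) * (k + 1)) := by
      have h4 : 0 ≤ (l : ℝ) ^ 2 * ((k + 2) * k) := by positivity
      nlinarith
    exact h2.trans h3
  have hfin : Real.exp (-4) * (z : ℝ) ^ 2 / (4 * (l : ℝ) ^ 2) *
      ((D : ℝ) + (2 * z + 4)) ^ (k + 2) ≤
      ((k : ℝ) + 2) * ((k : ℝ) + 1) / 2 * (z : ℝ) ^ 2 * (D : ℝ) ^ k := by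
    have hl2 : (0 : ℝ) < 4 * (l : ℝ) ^ 2 := by positivity
    have h1 : Real.exp (-4) * (z : ℝ) ^ 2 / (4 * (l : ℝ) ^ 2) *
        ((D : ℝ) + (2 * z + 4)) ^ (k + 2) = (z : ℝ) ^ 2 / (4 * (l : ℝ) ^ 2) *
        (Real.exp (-4) * ((D : ℝ) + (2 * z + 4)) ^ (k + 2)) := by ring
    have h2 : (z : ℝ) ^ 2 / (4 * (l : ℝ) ^ 2) *
        (Real.exp (-4) * ((D : ℝ) + (2 * z + 4)) ^ (k + 2)) ≤
        (z : ℝ) ^ 2 / (4 * (l : ℝ) ^ 2) * (D : ℝ) ^ (k + 2) :=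
      mul_le_mul_of_nonneg_left hexp' (by positivity)
    rw [h1]
    refine h2.trans ?_
    rw [div_mul_eq_mul_div, div_le_iff₀ hl2]
    have h3 : (z : ℝ) ^ 2 * (D : ℝ) ^ (k + 2) = ((z : ℝ) ^ 2 * (D : ℝ) ^ k) * (D : ℝ) ^ 2 := by ring
    rw [h3]
    have h4 := mul_le_mul_of_nonneg_left hsq
      (show (0 : ℝ) ≤ (z : ℝ) ^ 2 * (D : ℝ) ^ k by positivity)
    refine h4.trans (le_of_eq ?_)
    ring
  rw [add_mul, one_mul]
  linarith

end Pool.Agent.Lib.MP_623d7d_al
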