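import Mathlib

/-!
# From the bound to the limit
-/

set_option autoImplicit false

open Filter Topology

namespace Pool.Agent.Lib.MP_623d7d_al

lemma not_tendsto_of_bound (l m : ℕ) (hm : 0 < m) (hml : m ∣ l) (h4 : 4 * m ≤ l) (d : ℕ → ℕ)
    (h : ∀ n : ℕ, 2 ≤ n →
      (1 + Real.exp (-4) * (((l / m : ℕ) : ℝ) - 3) ^ 2 / (4 * (l : ℝ) ^ 2))
      * ((l : ℝ) * ((n : ℝ) - 1) + 2 * ((l : ℝ) / m) - 1) ^ n ≤ (d n : ℝ)) :
    ¬ Tendsto (fun n : ℕ => (d n : ℝ) / ((l : ℝ) * ((n : ℝ) - 1) + 2 * ((l : ℝ) / m) - 1) ^ n)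
      atTop (𝓝 1) := by
  intro ht
  have hm' : (0 : ℝ) < m := by exact_mod_cast hm
  have hl : (0 : ℝ) < l := by
    have : 0 < l := by omega
    exact_mod_cast this
  have h4' : 4 ≤ l / m := (Nat.le_div_iff_mul_le hm).2 h4
  have h4r : (4 : ℝ) ≤ ((l / m : ℕ) : ℝ) := by exact_mod_cast h4'
  have hlm : (4 : ℝ) ≤ (l : ℝ) / m := by
    rw [← Nat.cast_div hml hm'.ne']
    exact h4r
  set ε := Real.exp (-4) * (((l / m : ℕ) : ℝ) - 3) ^ 2 / (4 * (l : ℝ) ^ 2) with hε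
  have hεpos : 0 < ε := by
    rw [hε]
    have : (0 : ℝ) < ((l / m : ℕ) : ℝ) - 3 := by linarith
    positivity
  have hev := (ht.eventually (gt_mem_nhds (show (1 : ℝ) < 1 + ε by linarith))).and
    (eventually_ge_atTop 2)
  obtain ⟨n, hn1, hn2⟩ := hev.exists
  have hn := h n hn2
  have hbase : 0 < (l : ℝ) * ((n : ℝ) - 1) + 2 * ((l : ℝ) / m) - 1 := by
    have : (2 : ℝ) ≤ n := by exact_mod_cast hn2
    have : 0 ≤ (l : ℝ) * ((n : ℝ) - 1) := mul_nonneg hl.le (by linarith)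
    linarith
  have hpow : 0 < ((l : ℝ) * ((n : ℝ) - 1) + 2 * ((l : ℝ) / m) - 1) ^ n := pow_pos hbase n
  rw [div_lt_iff₀ hpow] at hn1
  linarith

end Pool.Agent.Lib.MP_623d7d_al
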