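import Mathlib

/-!
# Diagonal coinvariant rings of `G(ℓ,m,n)`: definitions
-/

set_option autoImplicit false

open MvPolynomial

namespace Pool.Agent.Lib.MP_623d7d_al

/-- Substitution by `g` on `ℂ[𝔥* ⊕ 𝔥]`: the variables `inl i` are the coordinates of the
`𝔥*`-component, on which `g` acts by the inverse transpose matrix; the variables `inr i` are the
coordinates of the `𝔥`-component, on which `g` acts by its matrix. -/
noncomputable def act {n : ℕ} (g : GL (Fin n) ℂ) :
    MvPolynomial (Fin n ⊕ Fin n) ℂ →ₐ[ℂ] MvPolynomial (Fin n ⊕ Fin n) ℂ :=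
  aeval (Sum.elim
    (fun i => ∑ j, C ((g⁻¹ : GL (Fin n) ℂ) j i) * X (Sum.inl j))
    (fun i => ∑ j, C (g i j) * X (Sum.inr j)))

/-- The group `G(ℓ,m,n)`: the invertible `n × n` matrices with exactly one nonzero entry in each
row and each column, whose nonzero entries are `ℓ`-th roots of unity with product an `(ℓ/m)`-th
root of unity. -/
def G (l m n : ℕ) : Set (GL (Fin n) ℂ) :=
  {g | (∀ i, ∃! j, g i j ≠ 0) ∧ (∀ j, ∃! i, g i j ≠ 0) ∧
    (∀ i j, g i j ≠ 0 → g i j ^ l = 1) ∧
    (∏ i, ∏ j, if g i j = 0 then 1 else g i j) ^ (l / m) = 1}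

/-- The ideal generated by the homogeneous `W`-invariant polynomials of positive degree. -/
noncomputable def coinvIdeal {n : ℕ} (W : Set (GL (Fin n) ℂ)) :
    Ideal (MvPolynomial (Fin n ⊕ Fin n) ℂ) :=
  Ideal.span {f | (∀ g ∈ W, act g f = f) ∧ ∃ d, 0 < d ∧ f.IsHomogeneous d}

/-- The dimension of the diagonal coinvariant ring `R_W`. -/
noncomputable def coinvDim {n : ℕ} (W : Set (GL (Fin n) ℂ)) : ℕ :=
  Module.finrank ℂ (MvPolynomial (Fin n ⊕ Fin n) ℂ ⧸ coinvIdeal W)

end Pool.Agent.Lib.MP_623d7d_al
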