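import Mathlib

set_option autoImplicit false

open MvPolynomial

namespace Pool.Agent.Lib.MP_623d7d_al

namespace Filt

set_option linter.unusedSectionVars false

variable {σ : Type*} [Fintype σ] [DecidableEq σ] {E : Type*} [AddCommGroup E] [Module ℂ E]

/-- Polynomials of total degree less than `d`. -/
noncomputable def PL (σ : Type*) : ℕ → Submodule ℂ (MvPolynomial σ ℂ)
  | 0 => ⊥
  | d + 1 => restrictTotalDegree σ ℂ d

theorem PL_mono : Monotone (PL σ) := by
  refine monotone_nat_of_le_succ fun n => ?_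
  cases n with
  | zero => exact bot_le
  | succ n =>
    intro p hp
    have h1 : p.totalDegree ≤ n := (mem_restrictTotalDegree σ n p).1 hp
    exact (mem_restrictTotalDegree σ (n + 1) p).2 (by omega)

theorem mem_PL {d : ℕ} {p : MvPolynomial σ ℂ} (h : p.totalDegree < d) : p ∈ PL σ d := by
  cases d with
  | zero => omega
  | succ d => exact (mem_restrictTotalDegree σ d p).2 (by omega)

theorem mul_step (θ : MvPolynomial σ ℂ →ₗ[ℂ] E) (T : σ → E →ₗ[ℂ] E)
    (h1 : ∀ (i : σ) (p : MvPolynomial σ ℂ) (d : ℕ), p.totalDegree ≤ d →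
      θ (X i * p) - T i (θ p) ∈ (restrictTotalDegree σ ℂ d).map θ)
    (i : σ) (p : MvPolynomial σ ℂ) (d : ℕ) (hp : p.totalDegree ≤ d)
    (h : θ p ∈ (PL σ d).map θ) : θ (X i * p) ∈ (PL σ (d + 1)).map θ := by
  obtain ⟨r, hr, hr2⟩ := h
  have e1 := h1 i p d hp
  -- T i (θ p) = T i (θ r)
  have e2 : T i (θ r) ∈ (restrictTotalDegree σ ℂ d).map θ := by
    cases d with
    | zero =>
      have : r = 0 := hr
      rw [this, map_zero, map_zero]
      exact Submodule.zero_mem _
    | succ d =>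
      have hrd : r.totalDegree ≤ d := (mem_restrictTotalDegree σ d r).1 hr
      have e3 := h1 i r d hrd
      have e4 : θ (X i * r) ∈ (restrictTotalDegree σ ℂ (d + 1)).map θ := by
        refine Submodule.mem_map_of_mem ?_
        rw [mem_restrictTotalDegree]
        refine (totalDegree_mul _ _).trans ?_
        rw [totalDegree_X]
        omega
      have e5 : (restrictTotalDegree σ ℂ d).map θ ≤ (restrictTotalDegree σ ℂ (d + 1)).map θ :=
        Submodule.map_mono (PL_mono (σ := σ) (show d + 1 ≤ d + 2 by omega))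
      have := Submodule.sub_mem _ e4 (e5 e3)
      simpa using this
  rw [← hr2] at e1
  have := Submodule.add_mem _ e1 e2
  rw [sub_add_cancel] at this
  exact this

theorem mul_gen (F : Set (MvPolynomial σ ℂ)) (θ : MvPolynomial σ ℂ →ₗ[ℂ] E)
    (T : σ → E →ₗ[ℂ] E)
    (h1 : ∀ (i : σ) (p : MvPolynomial σ ℂ) (d : ℕ), p.totalDegree ≤ d →
      θ (X i * p) - T i (θ p) ∈ (restrictTotalDegree σ ℂ d).map θ)
    (h2 : ∀ f ∈ F, ∃ c : ℂ, θ f = c • θ 1) {f : MvPolynomial σ ℂ} (hf : f ∈ F) {k : ℕ}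
    (hk : 0 < k) (hfk : f.IsHomogeneous k) (e : ℕ) :
    ∀ s : σ →₀ ℕ, s.degree = e → ∀ c : ℂ,
      θ (monomial s c * f) ∈ (PL σ (e + k)).map θ := by
  induction e with
  | zero =>
    intro s hs c
    have hs0 : s = 0 := (Finsupp.degree_eq_zero_iff s).1 hs
    subst hs0
    obtain ⟨a, ha⟩ := h2 f hf
    have h3 : monomial (0 : σ →₀ ℕ) c * f = c • f := by
      rw [← C_apply, C_mul']
    rw [h3, map_smul, ha, ← map_smul, ← map_smul]
    refine Submodule.mem_map_of_mem (mem_PL ?_)
    have : (c • a • (1 : MvPolynomial σ ℂ)) = C (c * a) := by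
      rw [smul_smul, ← C_mul', mul_one]
    rw [this, totalDegree_C]
    omega
  | succ e ih =>
    intro s hs c
    have hne : s ≠ 0 := by
      rintro rfl
      simp at hs
    obtain ⟨i, hi⟩ : ∃ i, s i ≠ 0 := by
      by_contra h
      push Not at h
      exact hne (Finsupp.ext h)
    obtain ⟨s', hs'⟩ : ∃ s' : σ →₀ ℕ, s = Finsupp.single i 1 + s' :=
      ⟨s - Finsupp.single i 1, by
        rw [add_comm, tsub_add_cancel_of_le]
        exact Finsupp.single_le_iff.2 (Nat.one_le_iff_ne_zero.2 hi)⟩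
    have hs'd : s'.degree = e := by
      rw [hs', map_add, Finsupp.degree_single] at hs
      omega
    have h3 : monomial s c * f = X i * (monomial s' c * f) := by
      rw [← mul_assoc, hs', X, monomial_mul, one_mul]
    rw [h3]
    have h4 := mul_step θ T h1 i (monomial s' c * f) (e + k) ?_ (ih s' hs'd c)
    · rw [show e + 1 + k = e + k + 1 by ring]
      exact h4
    · refine (totalDegree_mul _ _).trans ?_
      have a1 : (monomial s' c).totalDegree ≤ e := by
        rw [← hs'd]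
        by_cases hc : c = 0
        · simp [hc]
        · exact (totalDegree_monomial s' hc).le
      have a2 : f.totalDegree ≤ k := hfk.totalDegree_le
      omega

theorem hc_mul (h : MvPolynomial σ ℂ) {f : MvPolynomial σ ℂ} {k : ℕ} (hfk : f.IsHomogeneous k)
    (e : ℕ) : homogeneousComponent e (h * f) =
      if k ≤ e then homogeneousComponent (e - k) h * f else 0 := by
  let _ := gradedAlgebra (σ := σ) (R := ℂ)
  have h1 := DirectSum.coe_decompose_mul_of_right_mem (𝒜 := homogeneousSubmodule σ ℂ) (a := h)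
    (b := f) (i := k) e ((mem_homogeneousSubmodule k f).2 hfk)
  have h2 : ∀ (q : MvPolynomial σ ℂ) (n : ℕ),
      ((DirectSum.decompose (homogeneousSubmodule σ ℂ) q n : homogeneousSubmodule σ ℂ n) :
        MvPolynomial σ ℂ) = homogeneousComponent n q := fun q n => decomposition.decompose'_apply q n
  rw [h2, h2] at h1
  exact h1

theorem ideal_comp (F : Set (MvPolynomial σ ℂ)) (θ : MvPolynomial σ ℂ →ₗ[ℂ] E)
    (T : σ → E →ₗ[ℂ] E) (hF : ∀ f ∈ F, ∃ d, 0 < d ∧ f.IsHomogeneous d)
    (h1 : ∀ (i : σ) (p : MvPolynomial σ ℂ) (d : ℕ), p.totalDegree ≤ d →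
      θ (X i * p) - T i (θ p) ∈ (restrictTotalDegree σ ℂ d).map θ)
    (h2 : ∀ f ∈ F, ∃ c : ℂ, θ f = c • θ 1) {g : MvPolynomial σ ℂ} (hg : g ∈ Ideal.span F) :
    ∀ (h : MvPolynomial σ ℂ) (e : ℕ), θ (homogeneousComponent e (h * g)) ∈ (PL σ e).map θ := by
  refine Submodule.span_induction (p := fun g _ => ∀ (h : MvPolynomial σ ℂ) (e : ℕ),
    θ (homogeneousComponent e (h * g)) ∈ (PL σ e).map θ) ?_ ?_ ?_ ?_ hg
  · intro f hf h e
    obtain ⟨k, hk, hfk⟩ := hF f hf
    rw [hc_mul h hfk e]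
    split_ifs with hke
    · have hsum : homogeneousComponent (e - k) h * f =
          ∑ s ∈ (homogeneousComponent (e - k) h).support,
            monomial s (coeff s (homogeneousComponent (e - k) h)) * f := by
        rw [← Finset.sum_mul, ← as_sum]
      rw [hsum, map_sum]
      refine Submodule.sum_mem _ fun s hs => ?_
      have hsd : s.degree = e - k := by
        have := homogeneousComponent_isHomogeneous (e - k) h (mem_support_iff.1 hs)
        rw [Finsupp.degree_eq_weight_one]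
        exact this
      have := mul_gen F θ T h1 h2 hf hk hfk (e - k) s hsd
        (coeff s (homogeneousComponent (e - k) h))
      rwa [Nat.sub_add_cancel hke] at this
    · rw [map_zero]; exact Submodule.zero_mem _
  · intro h e
    rw [mul_zero, map_zero, map_zero]
    exact Submodule.zero_mem _
  · intro x y _ _ hx hy h e
    rw [mul_add, map_add, map_add]
    exact Submodule.add_mem _ (hx h e) (hy h e)
  · intro a x _ hx h e
    rw [smul_eq_mul, ← mul_assoc]
    exact hx (h * a) e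

theorem ideal_low (F : Set (MvPolynomial σ ℂ)) (θ : MvPolynomial σ ℂ →ₗ[ℂ] E)
    (T : σ → E →ₗ[ℂ] E) (hF : ∀ f ∈ F, ∃ d, 0 < d ∧ f.IsHomogeneous d)
    (h1 : ∀ (i : σ) (p : MvPolynomial σ ℂ) (d : ℕ), p.totalDegree ≤ d →
      θ (X i * p) - T i (θ p) ∈ (restrictTotalDegree σ ℂ d).map θ)
    (h2 : ∀ f ∈ F, ∃ c : ℂ, θ f = c • θ 1) {g : MvPolynomial σ ℂ} (hg : g ∈ Ideal.span F)
    {d : ℕ} (hd : g ∈ PL σ (d + 1)) : θ g ∈ (PL σ d).map θ := by
  have hdeg : g.totalDegree ≤ d := (mem_restrictTotalDegree σ d g).1 hd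
  rw [← sum_homogeneousComponent g, map_sum]
  refine Submodule.sum_mem _ fun e he => ?_
  have h3 := ideal_comp F θ T hF h1 h2 hg 1 e
  rw [one_mul] at h3
  refine Submodule.map_mono (PL_mono ?_) h3
  have := Finset.mem_range.1 he
  omega

end Filt

open Filt in
/-- T1 Filt.lean (import Mathlib only). Abstract filtration lemma. -/
theorem card_le_of_filtration {σ : Type*} [Fintype σ] [DecidableEq σ]
    {E : Type*} [AddCommGroup E] [Module ℂ E]
    (F : Set (MvPolynomial σ ℂ)) (θ : MvPolynomial σ ℂ →ₗ[ℂ] E) (T : σ → E →ₗ[ℂ] E)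
    (hF : ∀ f ∈ F, ∃ d, 0 < d ∧ f.IsHomogeneous d)
    (h1 : ∀ (i : σ) (p : MvPolynomial σ ℂ) (d : ℕ), p.totalDegree ≤ d →
      θ (X i * p) - T i (θ p) ∈ (restrictTotalDegree σ ℂ d).map θ)
    (h2 : ∀ f ∈ F, ∃ c : ℂ, θ f = c • θ 1)
    [Module.Finite ℂ (MvPolynomial σ ℂ ⧸ Ideal.span F)]
    {ι : Type*} [Fintype ι] (v : ι → E) (hv : ∀ i, v i ∈ LinearMap.range θ)
    (hli : LinearIndependent ℂ v) :
    Fintype.card ι ≤ Module.finrank ℂ (MvPolynomial σ ℂ ⧸ Ideal.span F) := by
  classical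
  let I : Submodule ℂ (MvPolynomial σ ℂ) := (Ideal.span F).restrictScalars ℂ
  have step : ∀ d : ℕ, ∃ C : Submodule ℂ (MvPolynomial σ ℂ), C ≤ PL σ d ∧ C ⊓ I = ⊥ ∧
      PL σ d ≤ C ⊔ I ∧ (PL σ d).map θ ≤ C.map θ := by
    intro d
    induction d with
    | zero => exact ⟨⊥, le_rfl, bot_inf_eq _, bot_le, le_rfl⟩
    | succ d ih =>
      obtain ⟨C, hC1, hC2, hC3, hC4⟩ := ih
      have hCP : C ≤ PL σ (d + 1) := hC1.trans (PL_mono (Nat.le_succ d))
      set P' := PL σ (d + 1) with hP'
      set K := C ⊔ (I ⊓ P') with hK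
      have hKP : K ≤ P' := sup_le hCP inf_le_right
      obtain ⟨L, hL⟩ := exists_isCompl K
      let D := L ⊓ P'
      have hD1 : K ⊓ D = ⊥ := by
        have : K ⊓ L = ⊥ := hL.inf_eq_bot
        refine le_bot_iff.1 ?_
        rw [← this]
        exact inf_le_inf_left _ inf_le_left
      have hD2 : K ⊔ D = P' := by
        have : (K ⊔ L) ⊓ P' = K ⊔ L ⊓ P' := sup_inf_assoc_of_le L hKP
        rw [← this, hL.sup_eq_top, top_inf_eq]
      refine ⟨C ⊔ D, sup_le hCP inf_le_right, ?_, ?_, ?_⟩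
      · refine le_bot_iff.1 ?_
        rintro x ⟨hx1, hx2⟩
        obtain ⟨c, hc, δ, hδ, rfl⟩ := Submodule.mem_sup.1 hx1
        have hxP : c + δ ∈ P' := P'.add_mem (hCP hc) hδ.2
        have hxK : c + δ ∈ K := Submodule.mem_sup_right ⟨hx2, hxP⟩
        have hδK : δ ∈ K := by
          have := K.sub_mem hxK (Submodule.mem_sup_left hc)
          simpa using this
        have hδ0 : δ = 0 := by
          have : δ ∈ K ⊓ D := ⟨hδK, hδ⟩
          rw [hD1] at this
          exact this
        subst hδ0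
        rw [add_zero] at hx2 ⊢
        have : c ∈ C ⊓ I := ⟨hc, hx2⟩
        rw [hC2] at this
        exact this
      · rw [← hD2, hK]
        refine sup_le (sup_le (le_sup_left.trans le_sup_left) (inf_le_left.trans le_sup_right)) ?_
        exact le_sup_right.trans le_sup_left
      · rw [← hD2, hK, Submodule.map_sup, Submodule.map_sup, Submodule.map_sup]
        refine sup_le (sup_le le_sup_left ?_) le_sup_right
        refine le_trans ?_ (hC4.trans le_sup_left)
        rintro _ ⟨g, ⟨hgI, hgP⟩, rfl⟩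
        exact ideal_low F θ T hF h1 h2 hgI hgP
  -- a degree bound
  choose w hw using hv
  obtain ⟨d, hd⟩ : ∃ d, ∀ i, w i ∈ PL σ d := by
    refine ⟨Finset.univ.sup (fun i => (w i).totalDegree) + 1, fun i => mem_PL ?_⟩
    exact Nat.lt_succ_of_le (Finset.le_sup (f := fun i => (w i).totalDegree) (Finset.mem_univ i))
  obtain ⟨C, -, hC2, -, hC4⟩ := step d
  -- `C` embeds into the quotient
  let q : C →ₗ[ℂ] (MvPolynomial σ ℂ ⧸ Ideal.span F) :=
    ((Ideal.Quotient.mkₐ ℂ (Ideal.span F)).toLinearMap).comp C.subtype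
  have hq : Function.Injective q := by
    rw [← LinearMap.ker_eq_bot, LinearMap.ker_eq_bot']
    intro c hc
    have h3 : (c : MvPolynomial σ ℂ) ∈ Ideal.span F := Ideal.Quotient.eq_zero_iff_mem.1 hc
    have : (c : MvPolynomial σ ℂ) ∈ C ⊓ I := ⟨c.2, h3⟩
    rw [hC2] at this
    exact Subtype.ext this
  have hCfin : Module.Finite ℂ C := Module.Finite.of_injective q hq
  have hv' : ∀ i, v i ∈ C.map θ := fun i => hC4 ⟨w i, hd i, hw i⟩
  have hli' : LinearIndependent ℂ (fun i => (⟨v i, hv' i⟩ : C.map θ)) := by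
    refine LinearIndependent.of_comp (C.map θ).subtype ?_
    exact hli
  calc Fintype.card ι ≤ Module.finrank ℂ (C.map θ) := hli'.fintype_card_le_finrank
    _ ≤ Module.finrank ℂ C := Submodule.finrank_map_le θ C
    _ ≤ _ := LinearMap.finrank_le_finrank_of_injective hq

end Pool.Agent.Lib.MP_623d7d_al
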