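import Pool.Agent.Lib.MP_623d7d_al.Defs

set_option autoImplicit false

open MvPolynomial

namespace Pool.Agent.Lib.MP_623d7d_al

namespace Fin1

theorem act_form {l m n : ℕ} {g : GL (Fin n) ℂ} (hg : g ∈ G l m n) :
    ∃ (π : Equiv.Perm (Fin n)) (t : Fin n → ℂ), (∀ i, t i ^ l = 1) ∧ (∀ i, t i ≠ 0) ∧
      (∀ i, act g (X (Sum.inl i)) = C ((t i)⁻¹) * X (Sum.inl (π i))) ∧
      ∀ i, act g (X (Sum.inr i)) = C (t i) * X (Sum.inr (π i)) := by
  classical
  obtain ⟨h1, h2, h3, -⟩ := hg
  choose f hf hf2 using h1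
  have hinj : Function.Injective f := by
    intro i i' h
    have a1 := hf i
    have a2 := hf i'
    rw [← h] at a2
    exact (h2 (f i)).unique a1 a2
  let π : Equiv.Perm (Fin n) := Equiv.ofBijective f (Finite.injective_iff_bijective.1 hinj)
  have hπ : ∀ i, π i = f i := fun i => rfl
  have hg0 : ∀ i j, j ≠ f i → g i j = 0 := by
    intro i j hj
    by_contra h
    exact hj (hf2 i j h)
  have hinv : ∀ i j, (g⁻¹ : GL (Fin n) ℂ) (f i) j = if i = j then (g i (f i))⁻¹ else 0 := by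
    intro i j
    have e1 : (g : Matrix (Fin n) (Fin n) ℂ) * (g⁻¹ : GL (Fin n) ℂ) = 1 := by
      rw [← Units.val_mul, mul_inv_cancel, Units.val_one]
    have e2 := congrFun (congrFun e1 i) j
    rw [Matrix.mul_apply, Finset.sum_eq_single (f i)] at e2
    · rw [Matrix.one_apply] at e2
      have e3 : (g⁻¹ : GL (Fin n) ℂ) (f i) j = (g i (f i))⁻¹ * (if i = j then 1 else 0) := by
        rw [← e2, ← mul_assoc, inv_mul_cancel₀ (hf i), one_mul]
      rw [e3]
      split_ifs <;> simp
    · intro k _ hk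
      have : (g : Matrix (Fin n) (Fin n) ℂ) i k = 0 := hg0 i k hk
      rw [this, zero_mul]
    · intro h
      exact absurd (Finset.mem_univ _) h
  refine ⟨π, fun i => g i (f i), fun i => h3 i (f i) (hf i), fun i => hf i, fun i => ?_,
    fun i => ?_⟩
  · rw [act, aeval_X, Sum.elim_inl, ← Equiv.sum_comp π, Finset.sum_eq_single i]
    · rw [hπ, hinv, if_pos rfl]
    · intro k _ hk
      rw [hπ, hinv, if_neg hk, C_0, zero_mul]
    · intro h
      exact absurd (Finset.mem_univ _) h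
  · rw [act, aeval_X, Sum.elim_inr, Finset.sum_eq_single (f i)]
    · rfl
    · intro k _ hk
      have : (g : Matrix (Fin n) (Fin n) ℂ) i k = 0 := hg0 i k hk
      rw [this, C_0, zero_mul]
    · intro h
      exact absurd (Finset.mem_univ _) h

/-- The invariants: elementary symmetric polynomials of the `l`-th powers. -/
theorem esymm_mem (l m n : ℕ) (hl : 0 < l) (s : Fin n → Fin n ⊕ Fin n)
    (hs : (s = Sum.inl) ∨ (s = Sum.inr)) (j : ℕ) (hj : 0 < j) :
    aeval (fun k => (X (s k) : MvPolynomial (Fin n ⊕ Fin n) ℂ) ^ l) (esymm (Fin n) ℂ j) ∈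
      coinvIdeal (G l m n) := by
  refine Ideal.subset_span ⟨fun g hg => ?_, l * j, by positivity, ?_⟩
  · obtain ⟨π, t, ht, ht0, hx, hy⟩ := act_form hg
    have key : ∀ k, act g ((X (s k) : MvPolynomial (Fin n ⊕ Fin n) ℂ) ^ l) = X (s (π k)) ^ l := by
      intro k
      rcases hs with rfl | rfl
      · rw [map_pow, hx, mul_pow, ← C_pow, inv_pow, ht, inv_one, C_1, one_mul]
      · rw [map_pow, hy, mul_pow, ← C_pow, ht, C_1, one_mul]
    have e1 : act g (aeval (fun k => (X (s k) : MvPolynomial (Fin n ⊕ Fin n) ℂ) ^ l)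
        (esymm (Fin n) ℂ j)) = aeval (fun k => (X (s (π k)) : MvPolynomial (Fin n ⊕ Fin n) ℂ) ^ l)
        (esymm (Fin n) ℂ j) := by
      rw [← AlgHom.comp_apply, comp_aeval]
      congr 2
      ext1 k
      exact key k
    rw [e1]
    have e2 : aeval (fun k => (X (s (π k)) : MvPolynomial (Fin n ⊕ Fin n) ℂ) ^ l)
        (esymm (Fin n) ℂ j) = aeval (fun k => (X (s k) : MvPolynomial (Fin n ⊕ Fin n) ℂ) ^ l)
        (rename π (esymm (Fin n) ℂ j)) := by
      rw [aeval_rename]
      rfl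
    rw [e2, rename_esymm]
  · rw [esymm, map_sum]
    refine IsHomogeneous.sum _ _ _ fun T hT => ?_
    rw [map_prod]
    have hT' : T.card = j := (Finset.mem_powersetCard.1 hT).2
    have h1 : (∏ i ∈ T, aeval (fun k => (X (s k) : MvPolynomial (Fin n ⊕ Fin n) ℂ) ^ l)
        (X i : MvPolynomial (Fin n) ℂ)).IsHomogeneous (∑ _i ∈ T, l) := by
      refine IsHomogeneous.prod _ _ _ fun i _ => ?_
      rw [aeval_X]
      have := (isHomogeneous_X ℂ (s i)).pow l
      rwa [one_mul] at this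
    rwa [Finset.sum_const, hT', smul_eq_mul, mul_comm] at h1

theorem pow_mem (l m n : ℕ) (hl : 0 < l) (s : Fin n → Fin n ⊕ Fin n)
    (hs : (s = Sum.inl) ∨ (s = Sum.inr)) (i : Fin n) :
    ((X (s i) : MvPolynomial (Fin n ⊕ Fin n) ℂ) ^ l) ^ n ∈ coinvIdeal (G l m n) := by
  let y : Fin n → MvPolynomial (Fin n ⊕ Fin n) ℂ := fun k => X (s k) ^ l
  have h1 := Multiset.prod_X_sub_X_eq_sum_esymm (Finset.univ.val.map y)
  have h2 := congrArg (Polynomial.eval (y i)) h1
  have hcard : Multiset.card (Finset.univ.val.map y) = n := by simp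
  rw [hcard] at h2
  have h3 : Polynomial.eval (y i) ((Finset.univ.val.map y).map
      fun t => (Polynomial.X - Polynomial.C t)).prod = 0 := by
    rw [Polynomial.eval_multiset_prod, Multiset.map_map, Multiset.map_map]
    refine Multiset.prod_eq_zero ?_
    refine Multiset.mem_map.2 ⟨i, Finset.mem_univ_val i, ?_⟩
    simp
  rw [h3, Finset.sum_range_succ', Polynomial.eval_add, Polynomial.eval_finsetSum] at h2
  have h4 : Polynomial.eval (y i) ((-1) ^ 0 * (Polynomial.C ((Finset.univ.val.map y).esymm 0) *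
      Polynomial.X ^ (n - 0))) = y i ^ n := by
    simp [Multiset.esymm]
  rw [h4] at h2
  have h5 : y i ^ n = - ∑ j ∈ Finset.range n, Polynomial.eval (y i)
      ((-1) ^ (j + 1) * (Polynomial.C ((Finset.univ.val.map y).esymm (j + 1)) *
      Polynomial.X ^ (n - (j + 1)))) := by
    rw [eq_neg_iff_add_eq_zero, add_comm]
    exact h2.symm
  show y i ^ n ∈ _
  rw [h5]
  refine neg_mem (Ideal.sum_mem _ fun j _ => ?_)
  rw [Polynomial.eval_mul, Polynomial.eval_mul, Polynomial.eval_C,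
    ← aeval_esymm_eq_multiset_esymm (Fin n) ℂ]
  refine Ideal.mul_mem_left _ _ (Ideal.mul_mem_right _ _ ?_)
  exact esymm_mem l m n hl s hs (j + 1) (Nat.succ_pos j)

end Fin1

/-- T2 Finite.lean (import Defs). -/
theorem finite_quot (l m n : ℕ) (hl : 0 < l) :
    Module.Finite ℂ (MvPolynomial (Fin n ⊕ Fin n) ℂ ⧸ coinvIdeal (G l m n)) := by
  rw [Algebra.finite_iff_isIntegral_and_finiteType]
  refine ⟨⟨fun q => ?_⟩, inferInstance⟩
  obtain ⟨p, rfl⟩ := Ideal.Quotient.mk_surjective q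
  have hX : ∀ i, IsIntegral ℂ (Ideal.Quotient.mk (coinvIdeal (G l m n)) (X i)) := by
    intro i
    obtain ⟨s, hs, k, rfl⟩ : ∃ (s : Fin n → Fin n ⊕ Fin n), ((s = Sum.inl) ∨ (s = Sum.inr)) ∧
        ∃ k, i = s k := by
      rcases i with k | k
      · exact ⟨Sum.inl, Or.inl rfl, k, rfl⟩
      · exact ⟨Sum.inr, Or.inr rfl, k, rfl⟩
    have hn : 0 < n := k.pos
    have h1 := Fin1.pow_mem l m n hl s hs k
    rw [← pow_mul] at h1
    refine IsIntegral.of_pow (n := l * n) (by positivity) ?_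
    rw [← map_pow, Ideal.Quotient.eq_zero_iff_mem.2 h1]
    exact isIntegral_zero
  induction p using MvPolynomial.induction_on with
  | C a => exact isIntegral_algebraMap (R := ℂ) (x := a)
  | add p q hp hq => rw [map_add]; exact hp.add hq
  | mul_X p i hp => rw [map_mul]; exact hp.mul (hX i)

end Pool.Agent.Lib.MP_623d7d_al
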