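import Mathlib

/-!
# The explicit module

`l`, `q` with `q ∣ l`, `4 ≤ q`; there are `k + 1` particles.  Positions are integers; a particle
lives on `1, …, l k + 2 q - 1`.  The three regions are `1 … lk+1`, `lk+2 … lk+q-2` (the zone) and
`lk+q-1 … lk+2q-1`, separated by walls.  The sites are `q + l j`, `0 ≤ j ≤ k`.
-/

set_option autoImplicit false

open MvPolynomial

namespace Pool.Agent.Lib.MP_623d7d_al

/-- the sites -/
def site (l q : ℕ) {k : ℕ} (j : Fin (k + 1)) : ℤ := q + l * j

/-- the parameter of the residue class of `s` modulo `q` -/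
noncomputable def par (l q k : ℕ) (s : ℤ) : ℂ :=
  if s % q = 1 then 1 else if s % q = 2 then ((l * k + 2 : ℤ) : ℂ)
  else if s % q = q - 1 then ((l * k + q - 1 : ℤ) : ℂ)
  else if s % q = 0 then ((l * k + 2 * q : ℤ) : ℂ) else 1 / 2

/-- the eigenvalue of `x y` at position `s` -/
noncomputable def fwall (l q k : ℕ) (s : ℤ) : ℂ := (s : ℂ) - par l q k s

/-- the three types of one-particle modules: up, down, sink -/
inductive Ty
  | P
  | Q
  | S
  deriving DecidableEq

/-- the walls at `s` which are crossed downwards -/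
def flip (l q k : ℕ) (τ : Ty) (s : ℤ) : Prop :=
  (s = l * k + 2 ∧ τ = Ty.Q) ∨ (s = l * k + q - 1 ∧ τ ≠ Ty.P)

open Classical in
/-- coefficient of `x : s → s + 1` -/
noncomputable def ca (l q k : ℕ) (τ : Ty) (s : ℤ) : ℂ :=
  if s + 1 = l * k + 2 * q ∨ flip l q k τ (s + 1) then 0 else 1

open Classical in
/-- coefficient of `y : s → s - 1` -/
noncomputable def cb (l q k : ℕ) (τ : Ty) (s : ℤ) : ℂ :=
  if flip l q k τ s then 1 else fwall l q k s

/-- one-particle raising operator on functions of the position -/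
noncomputable def opX (l q k : ℕ) (τ : Ty) : (ℤ → ℂ) →ₗ[ℂ] (ℤ → ℂ) where
  toFun φ := fun r => ca l q k τ (r - 1) * φ (r - 1)
  map_add' φ ψ := by funext r; simp [mul_add]
  map_smul' c φ := by funext r; simp [mul_left_comm]

/-- one-particle lowering operator on functions of the position -/
noncomputable def opY (l q k : ℕ) (τ : Ty) : (ℤ → ℂ) →ₗ[ℂ] (ℤ → ℂ) where
  toFun φ := fun r => cb l q k τ (r + 1) * φ (r + 1)
  map_add' φ ψ := by funext r; simp [mul_add]
  map_smul' c φ := by funext r; simp [mul_left_comm]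

/-- matrix coefficient of `x^a y^b` from `s` to `r` -/
noncomputable def BB (l q k : ℕ) (τ : Ty) (a b : ℕ) (r s : ℤ) : ℂ :=
  ((opX l q k τ ^ a) ((opY l q k τ ^ b) (Pi.single s 1))) r

/-- index set of the summands: `P`, `Q`, and one sink summand for each particle -/
abbrev Kap (k : ℕ) := Bool ⊕ Fin (k + 1)

/-- type of a summand -/
def ty {k : ℕ} : Kap k → Ty
  | Sum.inl true => Ty.P
  | Sum.inl false => Ty.Q
  | Sum.inr _ => Ty.S

/-- weight of the permutation `σ` in a summand -/
def wt {k : ℕ} : Kap k → Equiv.Perm (Fin (k + 1)) → ℂ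
  | Sum.inl _, _ => 1
  | Sum.inr t, σ => if σ t = Fin.last k then 1 else 0

/-- the ambient space -/
abbrev EE (k : ℕ) := Kap k → (Fin (k + 1) → ℤ) → ℂ

/-- the vector of the normally ordered monomial `x^α y^β` applied to the generator -/
noncomputable def TH (l q : ℕ) {k : ℕ} (α β : Fin (k + 1) → ℕ) : EE k := fun κ m =>
  ∑ σ : Equiv.Perm (Fin (k + 1)), ((Equiv.Perm.sign σ : ℤ) : ℂ) * wt κ σ *
    ∏ i, BB l q k (ty κ) (α i) (β i) (m i) (site l q (σ i))

/-- `θ : p ↦ p(x, y) v` (normally ordered) -/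
noncomputable def theta (l q k : ℕ) :
    MvPolynomial (Fin (k + 1) ⊕ Fin (k + 1)) ℂ →ₗ[ℂ] EE k :=
  (MvPolynomial.basisMonomials (Fin (k + 1) ⊕ Fin (k + 1)) ℂ).constr ℂ
    (fun s => TH l q (fun i => s (Sum.inl i)) (fun i => s (Sum.inr i)))

/-- the raising operator of particle `i` -/
noncomputable def TX (l q : ℕ) {k : ℕ} (i : Fin (k + 1)) : EE k →ₗ[ℂ] EE k where
  toFun φ := fun κ m => ca l q k (ty κ) (m i - 1) * φ κ (Function.update m i (m i - 1))
  map_add' φ ψ := by funext κ m; simp [mul_add]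
  map_smul' c φ := by funext κ m; simp [mul_left_comm]

/-- the lowering operator of particle `i` -/
noncomputable def TY (l q : ℕ) {k : ℕ} (i : Fin (k + 1)) : EE k →ₗ[ℂ] EE k where
  toFun φ := fun κ m => cb l q k (ty κ) (m i + 1) * φ κ (Function.update m i (m i + 1))
  map_add' φ ψ := by funext κ m; simp [mul_add]
  map_smul' c φ := by funext κ m; simp [mul_left_comm]

end Pool.Agent.Lib.MP_623d7d_al
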