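import Mathlib
import Pool.Agent.Lib.MP_623d7d_al.Model

/-!
# One-particle facts
-/

set_option autoImplicit false

namespace Pool.Agent.Lib.MP_623d7d_al

variable {l q k : ℕ}

lemma par_add (s t : ℤ) (hs : (q : ℤ) ∣ s) : par l q k (s + t) = par l q k t := by
  have h : (s + t) % q = t % q := by
    obtain ⟨u, rfl⟩ := hs
    rw [add_comm, Int.add_mul_emod_self_left]
  simp only [par, h]

lemma fwall_eq_zero_iff (hq : q ∣ l) (h4 : 4 ≤ q) (s : ℤ) :
    fwall l q k s = 0 ↔ s = 1 ∨ s = l * k + 2 ∨ s = l * k + q - 1 ∨ s = l * k + 2 * q := by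
  obtain ⟨u, rfl⟩ := hq
  have hq0 : (0 : ℤ) < q := by omega
  have h1 : (1 : ℤ) % q = 1 := Int.emod_eq_of_lt (by norm_num) (by omega)
  have h2 : (((q * u : ℕ) : ℤ) * k + 2) % q = 2 := by
    have : (((q * u : ℕ) : ℤ) * k + 2) = 2 + q * (u * k) := by push_cast; ring
    rw [this, Int.add_mul_emod_self_left]
    exact Int.emod_eq_of_lt (by norm_num) (by omega)
  have h3 : (((q * u : ℕ) : ℤ) * k + q - 1) % q = q - 1 := by
    have : (((q * u : ℕ) : ℤ) * k + q - 1) = (q - 1) + q * (u * k) := by push_cast; ring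
    rw [this, Int.add_mul_emod_self_left]
    exact Int.emod_eq_of_lt (by omega) (by omega)
  have h5 : (((q * u : ℕ) : ℤ) * k + 2 * q) % q = 0 := by
    have : (((q * u : ℕ) : ℤ) * k + 2 * q) = 0 + q * (u * k + 2) := by push_cast; ring
    rw [this, Int.add_mul_emod_self_left]
    simp
  unfold fwall par
  constructor
  · intro h
    rw [sub_eq_zero] at h
    split_ifs at h with c1 c2 c3 c4
    · left; exact_mod_cast h
    · right; left; exact_mod_cast h
    · right; right; left; exact_mod_cast h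
    · right; right; right; exact_mod_cast h
    · exfalso
      have : ((2 * s : ℤ) : ℂ) = ((1 : ℤ) : ℂ) := by push_cast; rw [h]; norm_num
      have h' : 2 * s = 1 := by exact_mod_cast this
      omega
  · rintro (rfl | rfl | rfl | rfl)
    · rw [if_pos h1]; simp
    · rw [if_neg (by rw [h2]; norm_num), if_pos h2]; simp
    · rw [if_neg (by rw [h3]; omega), if_neg (by rw [h3]; omega), if_pos h3]; simp
    · rw [if_neg (by rw [h5]; omega), if_neg (by rw [h5]; omega), if_neg (by rw [h5]; omega),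
        if_pos h5]
      simp

lemma cb_mul_ca (hq : q ∣ l) (h4 : 4 ≤ q) (τ : Ty) (s : ℤ) :
    cb l q k τ (s + 1) * ca l q k τ s = fwall l q k (s + 1) := by
  unfold cb ca
  by_cases hf : flip l q k τ (s + 1)
  · rw [if_pos hf, if_pos (Or.inr hf), mul_zero]
    symm
    rw [fwall_eq_zero_iff hq h4]
    rcases hf with ⟨h, -⟩ | ⟨h, -⟩
    · right; left; exact h
    · right; right; left; exact h
  · rw [if_neg hf]
    by_cases h3 : s + 1 = l * k + 2 * q
    · rw [if_pos (Or.inl h3), mul_zero]
      symm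
      rw [fwall_eq_zero_iff hq h4]
      right; right; right; exact h3
    · rw [if_neg (by rintro (h | h); exacts [h3 h, hf h]), mul_one]

/-- `x` raises the first exponent -/
lemma BB_X (τ : Ty) (a b : ℕ) (r s : ℤ) :
    ca l q k τ (r - 1) * BB l q k τ a b (r - 1) s = BB l q k τ (a + 1) b r s := by
  unfold BB
  rw [pow_succ']
  rfl

lemma opY_opX (hq : q ∣ l) (h4 : 4 ≤ q) (τ : Ty) (φ : ℤ → ℂ) (r : ℤ) :
    opY l q k τ (opX l q k τ φ) r = opX l q k τ (opY l q k τ φ) r
      + (fwall l q k (r + 1) - fwall l q k r) * φ r := by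
  change cb l q k τ (r + 1) * (ca l q k τ (r + 1 - 1) * φ (r + 1 - 1))
    = ca l q k τ (r - 1) * (cb l q k τ (r - 1 + 1) * φ (r - 1 + 1))
      + (fwall l q k (r + 1) - fwall l q k r) * φ r
  have e1 := cb_mul_ca (k := k) hq h4 τ r
  have e2 := cb_mul_ca (k := k) hq h4 τ (r - 1)
  rw [sub_add_cancel] at e2 ⊢
  rw [add_sub_cancel_right]
  linear_combination φ r * e1 - φ r * e2

lemma opX_single (τ : Ty) (s : ℤ) :
    opX l q k τ (Pi.single s 1) = ca l q k τ s • Pi.single (s + 1) 1 := by
  funext r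
  change ca l q k τ (r - 1) * (Pi.single s (1 : ℂ) : ℤ → ℂ) (r - 1)
    = ca l q k τ s * (Pi.single (s + 1) (1 : ℂ) : ℤ → ℂ) r
  by_cases h : r = s + 1
  · subst h
    simp
  · rw [Pi.single_eq_of_ne h, Pi.single_eq_of_ne (by omega)]
    simp

lemma opY_single (τ : Ty) (s : ℤ) :
    opY l q k τ (Pi.single s 1) = cb l q k τ s • Pi.single (s - 1) 1 := by
  funext r
  change cb l q k τ (r + 1) * (Pi.single s (1 : ℂ) : ℤ → ℂ) (r + 1)
    = cb l q k τ s * (Pi.single (s - 1) (1 : ℂ) : ℤ → ℂ) r
  by_cases h : r = s - 1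
  · subst h
    simp
  · rw [Pi.single_eq_of_ne h, Pi.single_eq_of_ne (by omega)]
    simp

lemma opY_pow_single (τ : Ty) (s : ℤ) (b : ℕ) :
    (opY l q k τ ^ b) (Pi.single s 1)
      = (∏ j ∈ Finset.Ioc (s - b) s, cb l q k τ j) • Pi.single (s - b) 1 := by
  induction b with
  | zero => simp
  | succ b ih =>
    rw [pow_succ', Module.End.mul_apply, ih, map_smul, opY_single, smul_smul]
    have h1 : Finset.Ioc (s - ((b + 1 : ℕ) : ℤ)) s = insert (s - b) (Finset.Ioc (s - b) s) := by
      ext x
      simp only [Finset.mem_Ioc, Finset.mem_insert]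
      push_cast
      omega
    rw [h1, Finset.prod_insert (by simp), mul_comm]
    congr 2
    push_cast
    ring

lemma opX_pow_single (τ : Ty) (s : ℤ) (a : ℕ) :
    (opX l q k τ ^ a) (Pi.single s 1)
      = (∏ j ∈ Finset.Ico s (s + a), ca l q k τ j) • Pi.single (s + a) 1 := by
  induction a with
  | zero => simp
  | succ a ih =>
    rw [pow_succ', Module.End.mul_apply, ih, map_smul, opX_single, smul_smul]
    have h1 : Finset.Ico s (s + ((a + 1 : ℕ) : ℤ)) = insert (s + a) (Finset.Ico s (s + a)) := by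
      ext x
      simp only [Finset.mem_Ico, Finset.mem_insert]
      push_cast
      omega
    rw [h1, Finset.prod_insert (by simp), mul_comm]
    congr 2
    push_cast
    ring

lemma BB_eq_prod (τ : Ty) (a b : ℕ) (r s : ℤ) :
    BB l q k τ a b r s = if r = s + a - b then
      (∏ j ∈ Finset.Ioc (s - b) s, cb l q k τ j)
        * (∏ j ∈ Finset.Ico (s - b) (s - b + a), ca l q k τ j) else 0 := by
  unfold BB
  rw [opY_pow_single, map_smul, opX_pow_single, smul_smul]
  rw [Pi.smul_apply, smul_eq_mul]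
  split_ifs with h
  · have : r = s - b + a := by omega
    rw [this]
    simp
  · rw [Pi.single_eq_of_ne (by omega), mul_zero]

/-- `y` raises the second exponent, up to a scalar multiple of a lower monomial -/
lemma BB_Y (hq : q ∣ l) (h4 : 4 ≤ q) (τ : Ty) (a b : ℕ) (r s : ℤ) (hs : (q : ℤ) ∣ s) :
    cb l q k τ (r + 1) * BB l q k τ a b (r + 1) s = BB l q k τ a (b + 1) r s
      + ((a : ℂ) - par l q k ((a : ℤ) - b) + par l q k (-(b : ℤ))) * BB l q k τ (a - 1) b r s := by
  have hpar : ∀ t, par l q k (s + t) = par l q k t := fun t => par_add s t hs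
  induction a generalizing r with
  | zero =>
    have : (opY l q k τ ^ (b + 1)) (Pi.single s 1) r
        = cb l q k τ (r + 1) * ((opY l q k τ ^ b) (Pi.single s 1)) (r + 1) := by
      rw [pow_succ']; rfl
    simp only [BB, pow_zero, Module.End.one_apply, this]
    simp
  | succ a ih =>
    have e0 : BB l q k τ (a + 1) (b + 1) r s
        = ca l q k τ (r - 1) * BB l q k τ a (b + 1) (r - 1) s := (BB_X τ a (b + 1) r s).symm
    have e1 := ih (r - 1)
    rw [sub_add_cancel] at e1
    -- LHS: Y (X φ) r with φ = X^a Y^b e_s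
    have e2 := opY_opX (k := k) hq h4 τ ((opX l q k τ ^ a) ((opY l q k τ ^ b) (Pi.single s 1))) r
    have e3 : opY l q k τ (opX l q k τ ((opX l q k τ ^ a) ((opY l q k τ ^ b) (Pi.single s 1)))) r
        = cb l q k τ (r + 1) * BB l q k τ (a + 1) b (r + 1) s := by
      unfold BB
      rw [pow_succ']
      rfl
    have e4 : opX l q k τ (opY l q k τ ((opX l q k τ ^ a) ((opY l q k τ ^ b) (Pi.single s 1)))) r
        = ca l q k τ (r - 1) * (cb l q k τ r * BB l q k τ a b r s) := by
      change ca l q k τ (r - 1) * (cb l q k τ (r - 1 + 1) * _) = _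
      rw [sub_add_cancel]
      rfl
    rw [e3, e4] at e2
    rw [e2, e1, e0, Nat.add_sub_cancel]
    have e5 : ((opX l q k τ ^ a) ((opY l q k τ ^ b) (Pi.single s 1))) r = BB l q k τ a b r s := rfl
    rw [e5]
    -- the remaining identity
    by_cases hr : r = s + a - b
    · have f1 : fwall l q k (r + 1) - fwall l q k r
          = 1 - par l q k (((a + 1 : ℕ) : ℤ) - b) + par l q k ((a : ℤ) - b) := by
        unfold fwall
        have g1 : r + 1 = s + (((a + 1 : ℕ) : ℤ) - b) := by push_cast; omega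
        have g2 : r = s + ((a : ℤ) - b) := by omega
        rw [show par l q k (r + 1) = par l q k (((a + 1 : ℕ) : ℤ) - b) by rw [g1, hpar],
          show par l q k r = par l q k ((a : ℤ) - b) by rw [g2, hpar]]
        push_cast
        ring
      rw [f1]
      rcases Nat.eq_zero_or_pos a with rfl | ha
      · simp only [Nat.zero_sub] at *
        push_cast
        simp only [zero_sub]
        ring
      · obtain ⟨a', rfl⟩ : ∃ a', a = a' + 1 := ⟨a - 1, by omega⟩
        rw [Nat.add_sub_cancel]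
        have e6 := BB_X (l := l) (q := q) (k := k) τ a' b r s
        push_cast at *
        linear_combination (((a' : ℂ) + 1) - par l q k ((a' : ℤ) + 1 - b) + par l q k (-(b : ℤ))) * e6
    · have z1 : BB l q k τ a b r s = 0 := by rw [BB_eq_prod, if_neg hr]
      have z2 : BB l q k τ (a - 1) b (r - 1) s = 0 ∨ a = 0 := by
        rcases Nat.eq_zero_or_pos a with h | h
        · right; exact h
        · left; rw [BB_eq_prod, if_neg (by push_cast [Nat.cast_sub h]; omega)]
      rw [z1]
      rcases z2 with z2 | rfl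
      · rw [z2]; ring
      · push_cast; simp only [zero_sub]; ring

/-- the path coefficient -/
noncomputable def AA (l q k : ℕ) (τ : Ty) (s r : ℤ) : ℂ :=
  if s ≤ r then ∏ j ∈ Finset.Ico s r, ca l q k τ j else ∏ j ∈ Finset.Ioc r s, cb l q k τ j

/-- the common factor -/
noncomputable def FF (l q k : ℕ) (a b : ℕ) (r s : ℤ) : ℂ :=
  if s ≤ r then ∏ j ∈ Finset.Ioc (s - b) s, fwall l q k j
  else ∏ j ∈ Finset.Ioc (r - a) r, fwall l q k j

lemma prod_cb_ca (hq : q ∣ l) (h4 : 4 ≤ q) (τ : Ty) (u v : ℤ) :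
    (∏ j ∈ Finset.Ioc u v, cb l q k τ j) * (∏ j ∈ Finset.Ico u v, ca l q k τ j)
      = ∏ j ∈ Finset.Ioc u v, fwall l q k j := by
  have h : ∀ g : ℤ → ℂ, ∏ j ∈ Finset.Ioc u v, g j = ∏ j ∈ Finset.Ico u v, g (j + 1) := by
    intro g
    refine (Finset.prod_bij (fun j _ => j + 1) ?_ ?_ ?_ ?_).symm
    · intro j hj
      simp only [Finset.mem_Ico, Finset.mem_Ioc] at *
      omega
    · intro a _ b _ hab
      omega
    · intro j hj
      refine ⟨j - 1, ?_, by omega⟩
      simp only [Finset.mem_Ico, Finset.mem_Ioc] at *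
      omega
    · intro j _
      rfl
  rw [h, h, ← Finset.prod_mul_distrib]
  exact Finset.prod_congr rfl fun j _ => cb_mul_ca hq h4 τ j

lemma BB_eq (hq : q ∣ l) (h4 : 4 ≤ q) (τ : Ty) (a b : ℕ) (r s : ℤ) :
    BB l q k τ a b r s = if r = s + a - b then FF l q k a b r s * AA l q k τ s r else 0 := by
  rw [BB_eq_prod]
  split_ifs with h
  · have hra : s - b + a = r := by omega
    rw [hra]
    unfold FF AA
    split_ifs with hsr
    · have h1 : Finset.Ico (s - b) r = Finset.Ico (s - b) s ∪ Finset.Ico s r := by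
        rw [Finset.Ico_union_Ico_eq_Ico (by omega) hsr]
      rw [h1, Finset.prod_union (Finset.Ico_disjoint_Ico_consecutive _ _ _), ← mul_assoc,
        prod_cb_ca hq h4]
    · have h1 : Finset.Ioc (s - b) s = Finset.Ioc (s - b) r ∪ Finset.Ioc r s := by
        rw [Finset.Ioc_union_Ioc_eq_Ioc (by omega) (by omega)]
      have h2 : Disjoint (Finset.Ioc (s - b) r) (Finset.Ioc r s) := by
        rw [Finset.disjoint_left]
        intro x hx hy
        simp only [Finset.mem_Ioc] at hx hy
        omega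
      rw [h1, Finset.prod_union h2, mul_right_comm, prod_cb_ca hq h4]
      have : r - a = s - b := by omega
      rw [this]
  · rfl

/-- particles stay in the box -/
lemma BB_box (hq : q ∣ l) (h4 : 4 ≤ q) (τ : Ty) (a b : ℕ) (r s : ℤ) (h1 : 1 ≤ s)
    (h2 : s ≤ l * k + 2 * q - 1) (h : BB l q k τ a b r s ≠ 0) :
    r = s + a - b ∧ 1 ≤ r ∧ r ≤ l * k + 2 * q - 1 := by
  have hr : r = s + a - b := by
    by_contra hc
    exact h (by rw [BB_eq_prod, if_neg hc])
  refine ⟨hr, ?_, ?_⟩
  · by_contra hc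
    apply h
    rw [BB_eq_prod, if_pos hr]
    apply mul_eq_zero_of_left
    apply Finset.prod_eq_zero (i := 1)
    · simp only [Finset.mem_Ioc]; omega
    · unfold cb
      have hlk : (0 : ℤ) ≤ l * k := by positivity
      rw [if_neg, fwall_eq_zero_iff hq h4]
      · left; rfl
      · rintro (⟨h', -⟩ | ⟨h', -⟩) <;> omega
  · by_contra hc
    apply h
    rw [BB_eq_prod, if_pos hr]
    apply mul_eq_zero_of_right
    apply Finset.prod_eq_zero (i := (l * k + 2 * q - 1 : ℤ))
    · simp only [Finset.mem_Ico]; omega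
    · unfold ca
      rw [if_pos]
      left; ring

/-- no downward crossing of the upper wall in type `P` -/
lemma BB_P_down (hq : q ∣ l) (h4 : 4 ≤ q) (a b : ℕ) (r s : ℤ)
    (hs : l * k + q - 1 ≤ s) (hr : r < l * k + q - 1) : BB l q k Ty.P a b r s = 0 := by
  rw [BB_eq hq h4]
  split_ifs with h
  · apply mul_eq_zero_of_right
    unfold AA
    rw [if_neg (by omega)]
    apply Finset.prod_eq_zero (i := (l * k + q - 1 : ℤ))
    · simp only [Finset.mem_Ioc]; omega
    · unfold cb
      rw [if_neg, fwall_eq_zero_iff hq h4]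
      · right; right; left; rfl
      · rintro (⟨-, h'⟩ | ⟨-, h'⟩)
        · exact absurd h' (by decide)
        · exact h' rfl
  · rfl

/-- no upward crossing of the upper wall in types `Q`, `S` -/
lemma BB_QS_up (hq : q ∣ l) (h4 : 4 ≤ q) (τ : Ty) (hτ : τ ≠ Ty.P) (a b : ℕ) (r s : ℤ)
    (hs : s < l * k + q - 1) (hr : l * k + q - 1 ≤ r) : BB l q k τ a b r s = 0 := by
  rw [BB_eq hq h4]
  split_ifs with h
  · apply mul_eq_zero_of_right
    unfold AA
    rw [if_pos (by omega)]
    apply Finset.prod_eq_zero (i := (l * k + q - 1 - 1 : ℤ))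
    · simp only [Finset.mem_Ico]; omega
    · unfold ca
      rw [if_pos]
      right; right
      exact ⟨by ring, hτ⟩
  · rfl

/-- no downward crossing of the lower wall in types `P`, `S` -/
lemma BB_PS_down (hq : q ∣ l) (h4 : 4 ≤ q) (τ : Ty) (hτ : τ ≠ Ty.Q) (a b : ℕ) (r s : ℤ)
    (hs : l * k + 2 ≤ s) (hr : r < l * k + 2) : BB l q k τ a b r s = 0 := by
  rw [BB_eq hq h4]
  split_ifs with h
  · apply mul_eq_zero_of_right
    unfold AA
    rw [if_neg (by omega)]
    apply Finset.prod_eq_zero (i := (l * k + 2 : ℤ))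
    · simp only [Finset.mem_Ioc]; omega
    · unfold cb
      rw [if_neg, fwall_eq_zero_iff hq h4]
      · right; left; rfl
      · rintro (⟨-, h'⟩ | ⟨h', -⟩)
        · exact hτ h'
        · omega
  · rfl

/-- the types agree below the lower wall -/
lemma BB_agree_low (hq : q ∣ l) (h4 : 4 ≤ q) (τ τ' : Ty) (a b : ℕ) (r s : ℤ)
    (hs : s < l * k + 2) (hr : r < l * k + 2) : BB l q k τ a b r s = BB l q k τ' a b r s := by
  have hf : ∀ (σ : Ty) (j : ℤ), j < l * k + 2 → ¬ flip l q k σ j := by
    rintro σ j hj (⟨h, -⟩ | ⟨h, -⟩) <;> omega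
  rw [BB_eq hq h4, BB_eq hq h4]
  split_ifs with h
  · congr 1
    unfold AA
    split_ifs with hsr
    · refine Finset.prod_congr rfl fun j hj => ?_
      simp only [Finset.mem_Ico] at hj
      unfold ca
      have n1 := hf τ (j + 1) (by omega)
      have n2 := hf τ' (j + 1) (by omega)
      simp only [n1, n2]
    · refine Finset.prod_congr rfl fun j hj => ?_
      simp only [Finset.mem_Ioc] at hj
      unfold cb
      rw [if_neg (hf τ j (by omega)), if_neg (hf τ' j (by omega))]
  · rfl

/-- the types agree above the upper wall -/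
lemma BB_agree_high (hq : q ∣ l) (h4 : 4 ≤ q) (τ τ' : Ty) (a b : ℕ) (r s : ℤ)
    (hs : l * k + q - 1 ≤ s) (hr : l * k + q - 1 ≤ r) :
    BB l q k τ a b r s = BB l q k τ' a b r s := by
  have hf : ∀ (σ : Ty) (j : ℤ), l * k + q - 1 < j → ¬ flip l q k σ j := by
    rintro σ j hj (⟨h, -⟩ | ⟨h, -⟩) <;> omega
  rw [BB_eq hq h4, BB_eq hq h4]
  split_ifs with h
  · congr 1
    unfold AA
    split_ifs with hsr
    · refine Finset.prod_congr rfl fun j hj => ?_
      simp only [Finset.mem_Ico] at hj
      unfold ca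
      have n1 := hf τ (j + 1) (by omega)
      have n2 := hf τ' (j + 1) (by omega)
      simp only [n1, n2]
    · refine Finset.prod_congr rfl fun j hj => ?_
      simp only [Finset.mem_Ioc] at hj
      unfold cb
      rw [if_neg (hf τ j (by omega)), if_neg (hf τ' j (by omega))]
  · rfl

end Pool.Agent.Lib.MP_623d7d_al
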