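import Mathlib
import Pool.Agent.Lib.MP_623d7d_al.Part

/-!
# `θ (x_i p) = x_i θ p` and `θ (y_i p) = y_i θ p + lower terms`
-/

set_option autoImplicit false

open MvPolynomial

namespace Pool.Agent.Lib.MP_623d7d_al

variable {l q k : ℕ}

lemma theta_monomial (s : (Fin (k + 1) ⊕ Fin (k + 1)) →₀ ℕ) (c : ℂ) :
    theta l q k (monomial s c)
      = c • TH l q (fun i => s (Sum.inl i)) (fun i => s (Sum.inr i)) := by
  have h : (monomial s c : MvPolynomial (Fin (k + 1) ⊕ Fin (k + 1)) ℂ)
      = c • (MvPolynomial.basisMonomials (Fin (k + 1) ⊕ Fin (k + 1)) ℂ) s := by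
    rw [coe_basisMonomials, smul_monomial, smul_eq_mul, mul_one]
  rw [h, map_smul]
  unfold theta
  rw [Module.Basis.constr_basis]

/-- `x_i` on a monomial vector -/
lemma TX_TH (i : Fin (k + 1)) (α β : Fin (k + 1) → ℕ) :
    TX l q i (TH l q α β) = TH l q (Function.update α i (α i + 1)) β := by
  funext κ m
  change ca l q k (ty κ) (m i - 1) * TH l q α β κ (Function.update m i (m i - 1)) = _
  unfold TH
  rw [Finset.mul_sum]
  refine Finset.sum_congr rfl fun σ _ => ?_
  rw [← Finset.mul_prod_erase Finset.univ _ (Finset.mem_univ i),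
    ← Finset.mul_prod_erase Finset.univ (fun j => BB l q k (ty κ)
      (Function.update α i (α i + 1) j) (β j) (m j) (site l q (σ j))) (Finset.mem_univ i)]
  rw [Function.update_self, Function.update_self, ← BB_X]
  have : ∏ j ∈ Finset.univ.erase i, BB l q k (ty κ) (α j) (β j)
        (Function.update m i (m i - 1) j) (site l q (σ j))
      = ∏ j ∈ Finset.univ.erase i, BB l q k (ty κ)
      (Function.update α i (α i + 1) j) (β j) (m j) (site l q (σ j)) := by
    refine Finset.prod_congr rfl fun j hj => ?_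
    have hji : j ≠ i := Finset.ne_of_mem_erase hj
    rw [Function.update_of_ne hji, Function.update_of_ne hji]
  rw [this]
  ring

lemma site_dvd (hq : q ∣ l) (j : Fin (k + 1)) : (q : ℤ) ∣ site l q j := by
  unfold site
  exact dvd_add (dvd_refl _) (Dvd.dvd.mul_right (by exact_mod_cast hq) _)

/-- `y_i` on a monomial vector -/
lemma TY_TH (hq : q ∣ l) (h4 : 4 ≤ q) (i : Fin (k + 1)) (α β : Fin (k + 1) → ℕ) :
    TY l q i (TH l q α β) = TH l q α (Function.update β i (β i + 1))
      + ((α i : ℂ) - par l q k ((α i : ℤ) - β i) + par l q k (-(β i : ℤ)))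
        • TH l q (Function.update α i (α i - 1)) β := by
  funext κ m
  change cb l q k (ty κ) (m i + 1) * TH l q α β κ (Function.update m i (m i + 1))
    = TH l q α (Function.update β i (β i + 1)) κ m
      + ((α i : ℂ) - par l q k ((α i : ℤ) - β i) + par l q k (-(β i : ℤ)))
        * TH l q (Function.update α i (α i - 1)) β κ m
  unfold TH
  rw [Finset.mul_sum, Finset.mul_sum, ← Finset.sum_add_distrib]
  refine Finset.sum_congr rfl fun σ _ => ?_
  rw [← Finset.mul_prod_erase Finset.univ (fun j => BB l q k (ty κ) (α j) (β j)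
      (Function.update m i (m i + 1) j) (site l q (σ j))) (Finset.mem_univ i),
    ← Finset.mul_prod_erase Finset.univ (fun j => BB l q k (ty κ) (α j)
      (Function.update β i (β i + 1) j) (m j) (site l q (σ j))) (Finset.mem_univ i),
    ← Finset.mul_prod_erase Finset.univ (fun j => BB l q k (ty κ)
      (Function.update α i (α i - 1) j) (β j) (m j) (site l q (σ j))) (Finset.mem_univ i)]
  simp only [Function.update_self]
  have e1 : ∏ j ∈ Finset.univ.erase i, BB l q k (ty κ) (α j) (β j)
        (Function.update m i (m i + 1) j) (site l q (σ j))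
      = ∏ j ∈ Finset.univ.erase i, BB l q k (ty κ) (α j) (β j) (m j) (site l q (σ j)) := by
    refine Finset.prod_congr rfl fun j hj => ?_
    rw [Function.update_of_ne (Finset.ne_of_mem_erase hj)]
  have e2 : ∏ j ∈ Finset.univ.erase i, BB l q k (ty κ) (α j)
        (Function.update β i (β i + 1) j) (m j) (site l q (σ j))
      = ∏ j ∈ Finset.univ.erase i, BB l q k (ty κ) (α j) (β j) (m j) (site l q (σ j)) := by
    refine Finset.prod_congr rfl fun j hj => ?_
    rw [Function.update_of_ne (Finset.ne_of_mem_erase hj)]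
  have e3 : ∏ j ∈ Finset.univ.erase i, BB l q k (ty κ)
        (Function.update α i (α i - 1) j) (β j) (m j) (site l q (σ j))
      = ∏ j ∈ Finset.univ.erase i, BB l q k (ty κ) (α j) (β j) (m j) (site l q (σ j)) := by
    refine Finset.prod_congr rfl fun j hj => ?_
    rw [Function.update_of_ne (Finset.ne_of_mem_erase hj)]
  rw [e1, e2, e3]
  have key := BB_Y (l := l) (q := q) (k := k) hq h4 (ty κ) (α i) (β i) (m i) (site l q (σ i))
    (site_dvd hq (σ i))
  linear_combination ((Equiv.Perm.sign σ : ℤ) : ℂ) * wt κ σ *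
    (∏ j ∈ Finset.univ.erase i, BB l q k (ty κ) (α j) (β j) (m j) (site l q (σ j))) * key

lemma theta_X_monomial (i : Fin (k + 1)) (s : (Fin (k + 1) ⊕ Fin (k + 1)) →₀ ℕ) (c : ℂ) :
    theta l q k (X (Sum.inl i) * monomial s c) = TX l q i (theta l q k (monomial s c)) := by
  rw [X, monomial_mul, one_mul, theta_monomial, theta_monomial, map_smul, TX_TH]
  congr 2
  · funext j
    by_cases hj : j = i
    · subst hj
      simp [add_comm]
    · simp [Function.update_of_ne hj, Ne.symm hj]
  · funext j
    simp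

lemma theta_Y_monomial (hq : q ∣ l) (h4 : 4 ≤ q) (i : Fin (k + 1))
    (s : (Fin (k + 1) ⊕ Fin (k + 1)) →₀ ℕ) (c : ℂ) :
    ∃ c' : ℂ, theta l q k (X (Sum.inr i) * monomial s c) - TY l q i (theta l q k (monomial s c))
      = theta l q k (monomial (s - Finsupp.single (Sum.inl i) 1) c') := by
  refine ⟨-(c * ((s (Sum.inl i) : ℂ) - par l q k ((s (Sum.inl i) : ℤ) - s (Sum.inr i))
    + par l q k (-(s (Sum.inr i) : ℤ)))), ?_⟩
  rw [X, monomial_mul, one_mul, theta_monomial, theta_monomial, theta_monomial, map_smul,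
    TY_TH hq h4]
  have e1 : TH l q (fun j => (Finsupp.single (Sum.inr i) 1 + s : (Fin (k + 1) ⊕ Fin (k + 1)) →₀ ℕ) (Sum.inl j))
        (fun j => (Finsupp.single (Sum.inr i) 1 + s : (Fin (k + 1) ⊕ Fin (k + 1)) →₀ ℕ) (Sum.inr j))
      = TH l q (k := k) (fun j => s (Sum.inl j))
        (Function.update (fun j => s (Sum.inr j)) i (s (Sum.inr i) + 1)) := by
    congr 1
    · funext j
      simp
    · funext j
      by_cases hj : j = i
      · subst hj
        simp [add_comm]
      · simp [Function.update_of_ne hj, Ne.symm hj]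
  have e2 : TH l q (fun j => (s - Finsupp.single (Sum.inl i) 1 : (Fin (k + 1) ⊕ Fin (k + 1)) →₀ ℕ) (Sum.inl j))
        (fun j => (s - Finsupp.single (Sum.inl i) 1 : (Fin (k + 1) ⊕ Fin (k + 1)) →₀ ℕ) (Sum.inr j))
      = TH l q (k := k) (Function.update (fun j => s (Sum.inl j)) i (s (Sum.inl i) - 1))
        (fun j => s (Sum.inr j)) := by
    congr 1
    · funext j
      by_cases hj : j = i
      · subst hj
        simp
      · simp [Function.update_of_ne hj, Ne.symm hj]
    · funext j
      simp
  rw [e1, e2, smul_add, smul_smul, neg_smul]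
  abel

theorem theta_step (l q k : ℕ) (hq : q ∣ l) (h4 : 4 ≤ q)
    (i : Fin (k + 1) ⊕ Fin (k + 1)) (p : MvPolynomial (Fin (k + 1) ⊕ Fin (k + 1)) ℂ) (d : ℕ)
    (hp : p.totalDegree ≤ d) :
    theta l q k (X i * p) - (Sum.elim (TX l q) (TY l q) i : EE k →ₗ[ℂ] EE k) (theta l q k p) ∈
      (restrictTotalDegree (Fin (k + 1) ⊕ Fin (k + 1)) ℂ d).map (theta l q k) := by
  have hsum : theta l q k (X i * p)
      - (Sum.elim (TX l q) (TY l q) i : EE k →ₗ[ℂ] EE k) (theta l q k p)
      = ∑ s ∈ p.support, (theta l q k (X i * monomial s (coeff s p))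
        - (Sum.elim (TX l q) (TY l q) i : EE k →ₗ[ℂ] EE k)
          (theta l q k (monomial s (coeff s p)))) := by
    conv_lhs => rw [p.as_sum]
    rw [Finset.mul_sum, map_sum, map_sum, map_sum, Finset.sum_sub_distrib]
  rw [hsum]
  refine Submodule.sum_mem _ fun s hs => ?_
  rcases i with i | i
  · simp only [Sum.elim_inl]
    rw [theta_X_monomial, sub_self]
    exact Submodule.zero_mem _
  · simp only [Sum.elim_inr]
    obtain ⟨c', hc'⟩ := theta_Y_monomial (l := l) (q := q) hq h4 i s (coeff s p)
    rw [hc']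
    refine Submodule.mem_map_of_mem ?_
    rw [mem_restrictTotalDegree]
    refine le_trans (totalDegree_monomial_le _ _) (le_trans ?_ (le_trans (le_totalDegree hs) hp))
    rw [Finsupp.sum_fintype _ _ (fun _ => rfl), Finsupp.sum_fintype _ _ (fun _ => rfl)]
    refine Finset.sum_le_sum fun j _ => ?_
    simp only [Finsupp.tsub_apply, id_eq]
    exact Nat.sub_le _ _

end Pool.Agent.Lib.MP_623d7d_al
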