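import Mathlib
import Pool.Agent.Lib.MP_623d7d_al.Model
import Pool.Agent.Lib.MP_623d7d_al.Part
import Pool.Agent.Lib.MP_623d7d_al.Step

/-!
# A large linearly independent family in the range of `theta`
-/

set_option autoImplicit false

open MvPolynomial

namespace Pool.Agent.Lib.MP_623d7d_al

variable {l q k : ℕ}

/-- the summand of `TH` which belongs to the permutation `σ` -/
noncomputable def gnU (l q : ℕ) {k : ℕ} (σ : Equiv.Perm (Fin (k + 1))) (α β : Fin (k + 1) → ℕ) :
    EE k :=
  fun κ m => wt κ σ * ∏ i, BB l q k (ty κ) (α i) (β i) (m i) (site l q (σ i))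

lemma gn_prod {F : Fin (k + 1) → ℂ} (i : Fin (k + 1)) (x : ℂ) (G : Fin (k + 1) → ℂ)
    (hi : G i = x) (h : ∀ j, j ≠ i → G j = F j) :
    ∏ j, G j = x * ∏ j ∈ Finset.univ.erase i, F j := by
  rw [← Finset.mul_prod_erase _ _ (Finset.mem_univ i), hi]
  congr 1
  exact Finset.prod_congr rfl fun j hj => h j (Finset.ne_of_mem_erase hj)

lemma gnU_X (σ : Equiv.Perm (Fin (k + 1))) (α β : Fin (k + 1) → ℕ) (i : Fin (k + 1)) :
    TX l q i (gnU l q σ α β) = gnU l q σ (Function.update α i (α i + 1)) β := by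
  funext κ m
  change ca l q k (ty κ) (m i - 1) * gnU l q σ α β κ (Function.update m i (m i - 1)) = _
  unfold gnU
  rw [gn_prod (F := fun j => BB l q k (ty κ) (α j) (β j) (m j) (site l q (σ j))) i
    (BB l q k (ty κ) (α i) (β i) (m i - 1) (site l q (σ i)))
    (fun j => BB l q k (ty κ) (α j) (β j) (Function.update m i (m i - 1) j) (site l q (σ j)))
    (by rw [Function.update_self]) (fun j hj => by rw [Function.update_of_ne hj])]
  rw [gn_prod (F := fun j => BB l q k (ty κ) (α j) (β j) (m j) (site l q (σ j))) i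
    (BB l q k (ty κ) (α i + 1) (β i) (m i) (site l q (σ i)))
    (fun j => BB l q k (ty κ) (Function.update α i (α i + 1) j) (β j) (m j) (site l q (σ j)))
    (by rw [Function.update_self]) (fun j hj => by rw [Function.update_of_ne hj])]
  rw [← BB_X]
  ring

lemma gn_site_dvd (hq : q ∣ l) (j : Fin (k + 1)) : (q : ℤ) ∣ site l q j := by
  unfold site
  have : (q : ℤ) ∣ (l : ℤ) := by exact_mod_cast hq
  exact dvd_add (dvd_refl _) (this.mul_right _)

lemma gnU_Y (hq : q ∣ l) (h4 : 4 ≤ q) (σ : Equiv.Perm (Fin (k + 1))) (α β : Fin (k + 1) → ℕ)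
    (i : Fin (k + 1)) (hα : α i = 0) :
    TY l q i (gnU l q σ α β) = gnU l q σ α (Function.update β i (β i + 1)) := by
  funext κ m
  change cb l q k (ty κ) (m i + 1) * gnU l q σ α β κ (Function.update m i (m i + 1)) = _
  unfold gnU
  rw [gn_prod (F := fun j => BB l q k (ty κ) (α j) (β j) (m j) (site l q (σ j))) i
    (BB l q k (ty κ) (α i) (β i) (m i + 1) (site l q (σ i)))
    (fun j => BB l q k (ty κ) (α j) (β j) (Function.update m i (m i + 1) j) (site l q (σ j)))
    (by rw [Function.update_self]) (fun j hj => by rw [Function.update_of_ne hj])]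
  rw [gn_prod (F := fun j => BB l q k (ty κ) (α j) (β j) (m j) (site l q (σ j))) i
    (BB l q k (ty κ) (α i) (β i + 1) (m i) (site l q (σ i)))
    (fun j => BB l q k (ty κ) (α j) (Function.update β i (β i + 1) j) (m j) (site l q (σ j)))
    (by rw [Function.update_self]) (fun j hj => by rw [Function.update_of_ne hj])]
  have h := BB_Y (l := l) (k := k) hq h4 (ty κ) (α i) (β i) (m i) (site l q (σ i))
    (gn_site_dvd hq (σ i))
  rw [hα] at h ⊢
  have h0 : ((0 : ℕ) : ℂ) - par l q k (((0 : ℕ) : ℤ) - (β i : ℤ)) + par l q k (-(β i : ℤ)) = 0 := by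
    simp
  rw [h0, zero_mul, add_zero] at h
  rw [← h]
  ring

lemma gn_stable_X (hq : q ∣ l) (h4 : 4 ≤ q) (i : Fin (k + 1)) {φ : EE k}
    (hφ : φ ∈ LinearMap.range (theta l q k)) : TX l q i φ ∈ LinearMap.range (theta l q k) := by
  obtain ⟨p, rfl⟩ := hφ
  have h := theta_step l q k hq h4 (Sum.inl i) p p.totalDegree le_rfl
  simp only [Sum.elim_inl] at h
  obtain ⟨r, -, hr⟩ := h
  refine ⟨X (Sum.inl i) * p - r, ?_⟩
  rw [map_sub, hr]
  abel

lemma gn_stable_Y (hq : q ∣ l) (h4 : 4 ≤ q) (i : Fin (k + 1)) {φ : EE k}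
    (hφ : φ ∈ LinearMap.range (theta l q k)) : TY l q i φ ∈ LinearMap.range (theta l q k) := by
  obtain ⟨p, rfl⟩ := hφ
  have h := theta_step l q k hq h4 (Sum.inr i) p p.totalDegree le_rfl
  simp only [Sum.elim_inr] at h
  obtain ⟨r, -, hr⟩ := h
  refine ⟨X (Sum.inr i) * p - r, ?_⟩
  rw [map_sub, hr]
  abel

lemma gn_diag (hq : q ∣ l) (h4 : 4 ≤ q) (i : Fin (k + 1)) (φ : EE k) :
    TX l q i (TY l q i φ) = fun κ m => fwall l q k (m i) * φ κ m := by
  funext κ m
  change ca l q k (ty κ) (m i - 1) *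
    (cb l q k (ty κ) (Function.update m i (m i - 1) i + 1) *
      φ κ (Function.update (Function.update m i (m i - 1)) i
        (Function.update m i (m i - 1) i + 1))) = _
  rw [Function.update_self, Function.update_idem]
  have e : m i - 1 + 1 = m i := by ring
  rw [e, Function.update_eq_self]
  have h := cb_mul_ca (l := l) (k := k) hq h4 (ty κ) (m i - 1)
  rw [e] at h
  rw [← h]
  ring

lemma gn_mul (hq : q ∣ l) (h4 : 4 ≤ q) (s : Finset (Fin (k + 1) × Fin (k + 1)))
    (c : Fin (k + 1) × Fin (k + 1) → ℂ) {φ : EE k} (hφ : φ ∈ LinearMap.range (theta l q k)) :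
    (fun κ m => (∏ x ∈ s, (fwall l q k (m x.1) - c x)) * φ κ m : EE k) ∈
      LinearMap.range (theta l q k) := by
  classical
  induction s using Finset.induction_on with
  | empty => simpa using hφ
  | insert a s ha ih =>
    have h1 := gn_stable_X hq h4 a.1 (gn_stable_Y hq h4 a.1 ih)
    rw [gn_diag hq h4] at h1
    have h2 := Submodule.sub_mem _ h1 (Submodule.smul_mem _ (c a) ih)
    convert h2 using 1
    funext κ m
    simp only [Pi.sub_apply, Pi.smul_apply, smul_eq_mul]
    rw [Finset.prod_insert ha]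
    ring

lemma BB_zero (τ : Ty) (r s : ℤ) : BB l q k τ 0 0 r s = if r = s then 1 else 0 := by
  unfold BB
  simp [Pi.single_apply]

lemma gn_theta_one : theta l q k 1 =
    ∑ σ : Equiv.Perm (Fin (k + 1)), ((Equiv.Perm.sign σ : ℤ) : ℂ) • gnU l q σ 0 0 := by
  have h1 : theta l q k 1 = TH l q 0 0 := by
    unfold theta
    have : (1 : MvPolynomial (Fin (k + 1) ⊕ Fin (k + 1)) ℂ) =
        MvPolynomial.basisMonomials (Fin (k + 1) ⊕ Fin (k + 1)) ℂ 0 := by
      rw [MvPolynomial.coe_basisMonomials]
      rfl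
    rw [this, Module.Basis.constr_basis]
    rfl
  rw [h1]
  funext κ m
  unfold TH gnU
  simp only [Finset.sum_apply, Pi.smul_apply, smul_eq_mul]
  exact Finset.sum_congr rfl fun σ _ => by rw [mul_assoc]

lemma gn_site_fwall (hq : q ∣ l) (j : Fin (k + 1)) (h4 : 4 ≤ q) :
    fwall l q k (site l q j) = ((l * (j : ℤ) - l * k - q : ℤ) : ℂ) := by
  have h1 : site l q j % (q : ℤ) = 0 := Int.emod_eq_zero_of_dvd (gn_site_dvd hq j)
  unfold fwall par
  rw [h1]
  have h2 : ¬ ((0 : ℤ) = 1) := by norm_num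
  have h3 : ¬ ((0 : ℤ) = 2) := by norm_num
  have h5 : ¬ ((0 : ℤ) = (q : ℤ) - 1) := by omega
  rw [if_neg h2, if_neg h3, if_neg h5, if_pos rfl]
  unfold site
  push_cast
  ring

lemma gn_fwall_inj (hq : q ∣ l) (hl : 0 < l) (h4 : 4 ≤ q) {i j : Fin (k + 1)}
    (h : fwall l q k (site l q i) = fwall l q k (site l q j)) : i = j := by
  rw [gn_site_fwall hq i h4, gn_site_fwall hq j h4] at h
  have h1 : (l * (i : ℤ) - l * k - q : ℤ) = (l * (j : ℤ) - l * k - q : ℤ) := by exact_mod_cast h
  have h2 : (l : ℤ) * (i : ℤ) = (l : ℤ) * (j : ℤ) := by linarith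
  have h3 : (i : ℤ) = (j : ℤ) := mul_left_cancel₀ (by exact_mod_cast hl.ne') h2
  apply Fin.ext
  exact_mod_cast h3

lemma gn_base (hq : q ∣ l) (hl : 0 < l) (h4 : 4 ≤ q) (σ : Equiv.Perm (Fin (k + 1))) :
    gnU l q σ 0 0 ∈ LinearMap.range (theta l q k) := by
  classical
  set s : Finset (Fin (k + 1) × Fin (k + 1)) := Finset.univ.filter (fun x => x.2 ≠ σ x.1) with hs
  have h1 := gn_mul (l := l) hq h4 s (fun x => fwall l q k (site l q x.2))
    (φ := theta l q k 1) ⟨1, rfl⟩
  set c : ℂ := ∏ x ∈ s, (fwall l q k (site l q (σ x.1)) - fwall l q k (site l q x.2)) with hc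
  have hc0 : c ≠ 0 := by
    rw [hc, Finset.prod_ne_zero_iff]
    intro x hx h
    rw [hs, Finset.mem_filter] at hx
    exact hx.2 (gn_fwall_inj hq hl h4 (sub_eq_zero.1 h)).symm
  have hsg : ((Equiv.Perm.sign σ : ℤ) : ℂ) ≠ 0 := by
    have := Int.units_ne_iff_eq_neg (u := Equiv.Perm.sign σ) (v := Equiv.Perm.sign σ)
    rcases Int.units_eq_one_or (Equiv.Perm.sign σ) with h | h <;> simp [h]
  have h2 : (fun κ m => (∏ x ∈ s, (fwall l q k (m x.1) - fwall l q k (site l q x.2))) *
      theta l q k 1 κ m : EE k) = (((Equiv.Perm.sign σ : ℤ) : ℂ) * c) • gnU l q σ 0 0 := by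
    funext κ m
    rw [gn_theta_one]
    simp only [Finset.sum_apply, Pi.smul_apply, smul_eq_mul]
    rw [Finset.mul_sum, Finset.sum_eq_single σ]
    · unfold gnU
      by_cases hm : ∀ i, m i = site l q (σ i)
      · have : (∏ x ∈ s, (fwall l q k (m x.1) - fwall l q k (site l q x.2))) = c := by
          rw [hc]
          exact Finset.prod_congr rfl fun x _ => by rw [hm]
        rw [this]
        ring
      · push Not at hm
        obtain ⟨i, hi⟩ := hm
        have : ∏ i, BB l q k (ty κ) ((0 : Fin (k + 1) → ℕ) i) ((0 : Fin (k + 1) → ℕ) i) (m i)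
            (site l q (σ i)) = 0 := by
          refine Finset.prod_eq_zero (Finset.mem_univ i) ?_
          rw [Pi.zero_apply, BB_zero, if_neg hi]
        rw [this]
        ring
    · intro σ' _ hσ'
      obtain ⟨i, hi⟩ : ∃ i, σ' i ≠ σ i := by
        by_contra hcon
        push Not at hcon
        exact hσ' (Equiv.ext hcon)
      by_cases hm : m i = site l q (σ' i)
      · have : (∏ x ∈ s, (fwall l q k (m x.1) - fwall l q k (site l q x.2))) = 0 := by
          refine Finset.prod_eq_zero (i := (i, σ' i)) ?_ ?_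
          · rw [hs, Finset.mem_filter]
            exact ⟨Finset.mem_univ _, hi⟩
          · simp only [hm, sub_self]
        rw [this, zero_mul]
      · have : gnU l q σ' 0 0 κ m = 0 := by
          unfold gnU
          have : ∏ i, BB l q k (ty κ) ((0 : Fin (k + 1) → ℕ) i) ((0 : Fin (k + 1) → ℕ) i) (m i)
              (site l q (σ' i)) = 0 := by
            refine Finset.prod_eq_zero (Finset.mem_univ i) ?_
            rw [Pi.zero_apply, BB_zero, if_neg hm]
          rw [this, mul_zero]
        rw [this]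
        ring
    · intro h
      exact absurd (Finset.mem_univ _) h
  rw [h2] at h1
  have h3 := Submodule.smul_mem _ ((((Equiv.Perm.sign σ : ℤ) : ℂ) * c)⁻¹) h1
  rwa [smul_smul, inv_mul_cancel₀ (mul_ne_zero hsg hc0), one_smul] at h3

lemma gn_mem (hq : q ∣ l) (hl : 0 < l) (h4 : 4 ≤ q) (σ : Equiv.Perm (Fin (k + 1)))
    (α β : Fin (k + 1) → ℕ) : gnU l q σ α β ∈ LinearMap.range (theta l q k) := by
  classical
  have hβ : ∀ (n : ℕ) (β : Fin (k + 1) → ℕ), ∑ i, β i = n →
      gnU l q σ 0 β ∈ LinearMap.range (theta l q k) := by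
    intro n
    induction n with
    | zero =>
      intro β hβ
      have : β = 0 := by
        funext i
        exact (Finset.sum_eq_zero_iff.1 hβ) i (Finset.mem_univ i)
      rw [this]
      exact gn_base hq hl h4 σ
    | succ n ih =>
      intro β hβ
      obtain ⟨i, hi⟩ : ∃ i, β i ≠ 0 := by
        by_contra hcon
        push Not at hcon
        rw [Finset.sum_eq_zero fun i _ => hcon i] at hβ
        omega
      have h1 := ih (Function.update β i (β i - 1)) (by
        rw [Finset.sum_update_of_mem (Finset.mem_univ i)]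
        rw [← Finset.add_sum_erase _ _ (Finset.mem_univ i)] at hβ
        rw [Finset.sdiff_singleton_eq_erase]
        omega)
      have h2 := gn_stable_Y hq h4 i h1
      rw [gnU_Y hq h4 _ _ _ _ (by simp), Function.update_idem, Function.update_self] at h2
      have h3 : β i - 1 + 1 = β i := by omega
      rwa [h3, Function.update_eq_self] at h2
  have hα : ∀ (n : ℕ) (α : Fin (k + 1) → ℕ), ∑ i, α i = n →
      gnU l q σ α β ∈ LinearMap.range (theta l q k) := by
    intro n
    induction n with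
    | zero =>
      intro α hα
      have : α = 0 := by
        funext i
        exact (Finset.sum_eq_zero_iff.1 hα) i (Finset.mem_univ i)
      rw [this]
      exact hβ _ β rfl
    | succ n ih =>
      intro α hα
      obtain ⟨i, hi⟩ : ∃ i, α i ≠ 0 := by
        by_contra hcon
        push Not at hcon
        rw [Finset.sum_eq_zero fun i _ => hcon i] at hα
        omega
      have h1 := ih (Function.update α i (α i - 1)) (by
        rw [Finset.sum_update_of_mem (Finset.mem_univ i)]
        rw [← Finset.add_sum_erase _ _ (Finset.mem_univ i)] at hα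
        rw [Finset.sdiff_singleton_eq_erase]
        omega)
      have h2 := gn_stable_X hq h4 i h1
      rw [gnU_X, Function.update_idem, Function.update_self] at h2
      have h3 : α i - 1 + 1 = α i := by omega
      rwa [h3, Function.update_eq_self] at h2
  exact hα _ α rfl

/-- the vector supported at the position `m` -/
noncomputable def gnV (l q : ℕ) {k : ℕ} (σ : Equiv.Perm (Fin (k + 1))) (m : Fin (k + 1) → ℤ) :
    EE k :=
  gnU l q σ (fun i => (m i - site l q (σ i)).toNat) (fun i => (site l q (σ i) - m i).toNat)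

lemma gn_BB (hq : q ∣ l) (h4 : 4 ≤ q) (τ : Ty) (r r' s : ℤ) :
    BB l q k τ (r - s).toNat (s - r).toNat r' s = if r' = r then AA l q k τ s r else 0 := by
  rw [BB_eq hq h4]
  have e : s + ((r - s).toNat : ℤ) - ((s - r).toNat : ℤ) = r := by omega
  rw [e]
  by_cases h : r' = r
  · subst h
    rw [if_pos rfl, if_pos rfl]
    have : FF l q k (r' - s).toNat (s - r').toNat r' s = 1 := by
      unfold FF
      split_ifs with hsr
      · have : (s - r').toNat = 0 := by omega
        rw [this]
        simp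
      · have : (r' - s).toNat = 0 := by omega
        rw [this]
        simp
    rw [this, one_mul]
  · rw [if_neg h, if_neg h]

lemma gnV_apply (hq : q ∣ l) (h4 : 4 ≤ q) (σ : Equiv.Perm (Fin (k + 1))) (m m' : Fin (k + 1) → ℤ)
    (κ : Kap k) : gnV l q σ m κ m' =
      wt κ σ * ∏ i, if m' i = m i then AA l q k (ty κ) (site l q (σ i)) (m i) else 0 := by
  unfold gnV gnU
  congr 1
  exact Finset.prod_congr rfl fun i _ => gn_BB hq h4 _ _ _ _

lemma gn_AA_ne (τ : Ty) (s r : ℤ) (hup : ∀ j, s ≤ j → j < r → ca l q k τ j ≠ 0)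
    (hdown : ∀ j, r < j → j ≤ s → cb l q k τ j ≠ 0) : AA l q k τ s r ≠ 0 := by
  unfold AA
  split_ifs with h
  · rw [Finset.prod_ne_zero_iff]
    intro j hj
    rw [Finset.mem_Ico] at hj
    exact hup j hj.1 hj.2
  · rw [Finset.prod_ne_zero_iff]
    intro j hj
    rw [Finset.mem_Ioc] at hj
    exact hdown j hj.1 hj.2

lemma gn_ca_ne (τ : Ty) (j : ℤ) (h1 : j + 1 ≠ l * k + 2 * q) (h2 : ¬ flip l q k τ (j + 1)) :
    ca l q k τ j ≠ 0 := by
  unfold ca
  rw [if_neg (by tauto)]
  exact one_ne_zero

lemma gn_cb_ne (τ : Ty) (j : ℤ) (h : flip l q k τ j ∨ fwall l q k j ≠ 0) :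
    cb l q k τ j ≠ 0 := by
  unfold cb
  split_ifs with h1
  · exact one_ne_zero
  · tauto

lemma gn_fwall_ne (hq : q ∣ l) (h4 : 4 ≤ q) (j : ℤ) (h1 : j ≠ 1) (h2 : j ≠ l * k + 2)
    (h3 : j ≠ l * k + q - 1) (h5 : j ≠ l * k + 2 * q) : fwall l q k j ≠ 0 := by
  intro h
  rw [fwall_eq_zero_iff hq h4] at h
  rcases h with h | h | h | h
  · exact h1 h
  · exact h2 h
  · exact h3 h
  · exact h5 h

lemma gn_AA_P (hq : q ∣ l) (h4 : 4 ≤ q) (s r : ℤ)
    (hs : (1 ≤ s ∧ s ≤ l * k ∧ 1 ≤ r) ∨ (s = q + l * k ∧ l * k + q - 1 ≤ r))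
    (hr : r ≤ l * k + 2 * q - 1) : AA l q k Ty.P s r ≠ 0 := by
  have hlk : (0 : ℤ) ≤ (l : ℤ) * k := by positivity
  have hflip : ∀ j, ¬ flip l q k Ty.P j := by
    intro j h
    unfold flip at h
    rcases h with h | h
    · exact absurd h.2 (by decide)
    · exact h.2 rfl
  refine gn_AA_ne _ _ _ (fun j h1 h2 => gn_ca_ne _ _ (by omega) (hflip _)) fun j h1 h2 =>
    gn_cb_ne _ _ (Or.inr (gn_fwall_ne hq h4 _ ?_ ?_ ?_ ?_)) <;> omega

lemma gn_AA_S (hq : q ∣ l) (h4 : 4 ≤ q) (s r : ℤ)
    (hs : (1 ≤ s ∧ s ≤ l * k ∧ 1 ≤ r) ∨ (s = q + l * k ∧ l * k + 2 ≤ r))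
    (hr : r ≤ l * k + q - 2) : AA l q k Ty.S s r ≠ 0 := by
  have hlk : (0 : ℤ) ≤ (l : ℤ) * k := by positivity
  refine gn_AA_ne _ _ _ (fun j h1 h2 => gn_ca_ne _ _ (by omega) ?_) fun j h1 h2 =>
    gn_cb_ne _ _ ?_
  · intro h
    unfold flip at h
    rcases h with h | h
    · exact absurd h.2 (by decide)
    · omega
  · by_cases hj : j = l * k + q - 1
    · left
      exact Or.inr ⟨hj, by decide⟩
    · right
      refine gn_fwall_ne hq h4 _ ?_ ?_ ?_ ?_ <;> omega

lemma gn_AA_Q (hq : q ∣ l) (h4 : 4 ≤ q) (s r : ℤ) (hs : 1 ≤ s ∧ s ≤ l * k + q)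
    (hr : 1 ≤ r ∧ r ≤ l * k + 1) : AA l q k Ty.Q s r ≠ 0 := by
  have hlk : (0 : ℤ) ≤ (l : ℤ) * k := by positivity
  refine gn_AA_ne _ _ _ (fun j h1 h2 => gn_ca_ne _ _ (by omega) ?_) fun j h1 h2 =>
    gn_cb_ne _ _ ?_
  · intro h
    unfold flip at h
    rcases h with h | h <;> omega
  · by_cases hj : j = l * k + q - 1
    · left
      exact Or.inr ⟨hj, by decide⟩
    · by_cases hj2 : j = l * k + 2
      · left
        exact Or.inl ⟨hj2, rfl⟩
      · right
        refine gn_fwall_ne hq h4 _ ?_ ?_ ?_ ?_ <;> omega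

lemma gn_site_last : site l q (Fin.last k) = q + l * k := by
  unfold site
  simp

lemma gn_site_low (hq : q ∣ l) (hl : 0 < l) (h4 : 4 ≤ q) {j : Fin (k + 1)} (hj : j ≠ Fin.last k) :
    1 ≤ site l q j ∧ site l q j ≤ l * k := by
  have h1 : (j : ℕ) + 1 ≤ k := by
    have h2 : (j : ℕ) ≠ k := fun h => hj (Fin.ext h)
    have := j.2
    omega
  have hql : q ≤ l := Nat.le_of_dvd hl hq
  have h2 : l * ((j : ℕ) + 1) ≤ l * k := Nat.mul_le_mul_left _ h1
  have h3 : ((l * ((j : ℕ) + 1) : ℕ) : ℤ) ≤ ((l * k : ℕ) : ℤ) := by exact_mod_cast h2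
  push_cast at h3
  have h5 : (q : ℤ) ≤ l := by exact_mod_cast hql
  have h6 : (0 : ℤ) ≤ (l : ℤ) * (j : ℕ) := by positivity
  unfold site
  constructor
  · have : (4 : ℤ) ≤ q := by exact_mod_cast h4
    linarith
  · linarith

/-- first index set: some particle above the upper wall -/
def gnIP (l q k : ℕ) : Finset (Fin (k + 1) → ℕ) :=
  Fintype.piFinset (fun _ => Finset.range (l * k + 2 * q - 1)) \
    Fintype.piFinset (fun _ => Finset.range (l * k + q - 2))

/-- second index set: a distinguished particle in the zone -/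
def gnIS (l q k : ℕ) : Finset ((_ : Fin (k + 1)) × (Fin (k + 1) → ℕ)) :=
  (Finset.univ : Finset (Fin (k + 1))).sigma (fun t => Fintype.piFinset (fun i =>
    if i = t then Finset.Ico (l * k + 1) (l * k + q - 2) else Finset.range (l * k + q - 2)))

/-- third index set: all particles below the lower wall -/
def gnIQ (l k : ℕ) : Finset (Fin (k + 1) → ℕ) :=
  Fintype.piFinset (fun _ => Finset.range (l * k + 1))

/-- all indices -/
abbrev GnI (l q k : ℕ) : Type := ↥(gnIP l q k) ⊕ ↥(gnIS l q k) ⊕ ↥(gnIQ l k)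

lemma gnIP_exists (a : ↥(gnIP l q k)) : ∃ t, l * k + q - 2 ≤ a.1 t := by
  have h := a.2
  unfold gnIP at h
  rw [Finset.mem_sdiff, Fintype.mem_piFinset, Fintype.mem_piFinset] at h
  by_contra hcon
  push Not at hcon
  exact h.2 fun i => Finset.mem_range.2 (hcon i)

/-- positions -/
def gnPos : GnI l q k → Fin (k + 1) → ℕ
  | Sum.inl a => a.1
  | Sum.inr (Sum.inl a) => a.1.2
  | Sum.inr (Sum.inr a) => a.1

/-- permutations -/
noncomputable def gnSig : GnI l q k → Equiv.Perm (Fin (k + 1))
  | Sum.inl a => Equiv.swap (gnIP_exists a).choose (Fin.last k)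
  | Sum.inr (Sum.inl a) => Equiv.swap a.1.1 (Fin.last k)
  | Sum.inr (Sum.inr _) => 1

/-- summands -/
def gnKap : GnI l q k → Kap k
  | Sum.inl _ => Sum.inl true
  | Sum.inr (Sum.inl a) => Sum.inr a.1.1
  | Sum.inr (Sum.inr _) => Sum.inl false

/-- the vectors -/
noncomputable def gnW (l q k : ℕ) (a : GnI l q k) : EE k :=
  gnV l q (gnSig a) (fun i => (gnPos a i : ℤ) + 1)

lemma gnW_apply (hq : q ∣ l) (h4 : 4 ≤ q) (a b : GnI l q k) :
    gnW l q k b (gnKap a) (fun i => (gnPos a i : ℤ) + 1) = wt (gnKap a) (gnSig b) *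
      ∏ i, if gnPos a i = gnPos b i then
        AA l q k (ty (gnKap a)) (site l q (gnSig b i)) ((gnPos b i : ℤ) + 1) else 0 := by
  unfold gnW
  rw [gnV_apply hq h4]
  congr 1
  refine Finset.prod_congr rfl fun i _ => ?_
  have : ((gnPos a i : ℤ) + 1 = (gnPos b i : ℤ) + 1) ↔ gnPos a i = gnPos b i := by omega
  simp only [this]

lemma gn_swap_ne {t i : Fin (k + 1)} (hi : i ≠ t) : Equiv.swap t (Fin.last k) i ≠ Fin.last k := by
  intro h
  have h1 : Equiv.swap t (Fin.last k) t = Fin.last k := Equiv.swap_apply_left _ _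
  exact hi ((Equiv.swap t (Fin.last k)).injective (h.trans h1.symm))

lemma gnW_self (hq : q ∣ l) (hl : 0 < l) (h4 : 4 ≤ q) (a : GnI l q k) :
    gnW l q k a (gnKap a) (fun i => (gnPos a i : ℤ) + 1) ≠ 0 := by
  rw [gnW_apply hq h4]
  refine mul_ne_zero ?_ (Finset.prod_ne_zero_iff.2 fun i _ => ?_)
  · rcases a with a | a | a
    · exact one_ne_zero
    · change (if Equiv.swap a.1.1 (Fin.last k) a.1.1 = Fin.last k then (1 : ℂ) else 0) ≠ 0
      rw [Equiv.swap_apply_left, if_pos rfl]
      exact one_ne_zero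
    · exact one_ne_zero
  · rw [if_pos rfl]
    rcases a with a | a | a
    · change AA l q k Ty.P (site l q (Equiv.swap (gnIP_exists a).choose (Fin.last k) i))
        ((a.1 i : ℤ) + 1) ≠ 0
      have hspec := (gnIP_exists a).choose_spec
      set t := (gnIP_exists a).choose with ht
      have ha := a.2
      unfold gnIP at ha
      rw [Finset.mem_sdiff, Fintype.mem_piFinset] at ha
      have hai := Finset.mem_range.1 (ha.1 i)
      refine gn_AA_P hq h4 _ _ ?_ ?_
      · by_cases hi : i = t
        · right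
          rw [hi, Equiv.swap_apply_left, gn_site_last]
          refine ⟨rfl, ?_⟩
          have : (l * k + q - 2 : ℕ) ≤ a.1 t := hspec
          zify at this ⊢
          push_cast [show 2 ≤ l * k + q by omega] at this
          linarith
        · left
          have h1 := gn_site_low (l := l) (q := q) hq hl h4 (gn_swap_ne hi)
          exact ⟨h1.1, h1.2, by omega⟩
      · have : ((a.1 i : ℕ) : ℤ) < ((l * k + 2 * q - 1 : ℕ) : ℤ) := by exact_mod_cast hai
        push_cast [show 1 ≤ l * k + 2 * q by omega] at this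
        linarith
    · change AA l q k Ty.S (site l q (Equiv.swap a.1.1 (Fin.last k) i)) ((a.1.2 i : ℤ) + 1) ≠ 0
      have ha := a.2
      unfold gnIS at ha
      rw [Finset.mem_sigma, Fintype.mem_piFinset] at ha
      have hai := ha.2 i
      by_cases hi : i = a.1.1
      · rw [if_pos hi, Finset.mem_Ico] at hai
        refine gn_AA_S hq h4 _ _ ?_ ?_
        · right
          rw [hi, Equiv.swap_apply_left, gn_site_last]
          refine ⟨rfl, ?_⟩
          have : ((l * k + 1 : ℕ) : ℤ) ≤ ((a.1.2 i : ℕ) : ℤ) := by exact_mod_cast hai.1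
          push_cast at this
          rw [hi] at this
          linarith
        · have : ((a.1.2 i : ℕ) : ℤ) < ((l * k + q - 2 : ℕ) : ℤ) := by exact_mod_cast hai.2
          push_cast [show 2 ≤ l * k + q by omega] at this
          linarith
      · rw [if_neg hi, Finset.mem_range] at hai
        refine gn_AA_S hq h4 _ _ ?_ ?_
        · left
          have h1 := gn_site_low (l := l) (q := q) hq hl h4 (gn_swap_ne hi)
          exact ⟨h1.1, h1.2, by omega⟩
        · have : ((a.1.2 i : ℕ) : ℤ) < ((l * k + q - 2 : ℕ) : ℤ) := by exact_mod_cast hai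
          push_cast [show 2 ≤ l * k + q by omega] at this
          linarith
    · change AA l q k Ty.Q (site l q i) ((a.1 i : ℤ) + 1) ≠ 0
      have ha := a.2
      unfold gnIQ at ha
      rw [Fintype.mem_piFinset] at ha
      have hai := Finset.mem_range.1 (ha i)
      refine gn_AA_Q hq h4 _ _ ?_ ?_
      · by_cases hi : i = Fin.last k
        · rw [hi, gn_site_last]
          have hlk : (0 : ℤ) ≤ (l : ℤ) * k := by positivity
          constructor
          · have : (4 : ℤ) ≤ q := by exact_mod_cast h4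
            linarith
          · linarith
        · have h1 := gn_site_low (l := l) (q := q) hq hl h4 hi
          refine ⟨h1.1, h1.2.trans ?_⟩
          have : (0 : ℤ) ≤ q := by positivity
          linarith
      · have : ((a.1 i : ℕ) : ℤ) < ((l * k + 1 : ℕ) : ℤ) := by exact_mod_cast hai
        push_cast at this
        constructor
        · have : (0 : ℤ) ≤ (a.1 i : ℤ) := by positivity
          linarith
        · linarith

lemma gnW_other (hq : q ∣ l) (h4 : 4 ≤ q) {a b : GnI l q k} (hab : a ≠ b) :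
    gnW l q k b (gnKap a) (fun i => (gnPos a i : ℤ) + 1) = 0 := by
  rw [gnW_apply hq h4]
  by_cases hpos : ∀ i, gnPos a i = gnPos b i
  · have hP : ∀ c : ↥(gnIP l q k), ∃ t, l * k + q - 2 ≤ c.1 t := gnIP_exists
    have hS : ∀ c : ↥(gnIS l q k), (∀ i, c.1.2 i < l * k + q - 2) ∧
        l * k + 1 ≤ c.1.2 c.1.1 := by
      intro c
      have hc := c.2
      unfold gnIS at hc
      rw [Finset.mem_sigma, Fintype.mem_piFinset] at hc
      refine ⟨fun i => ?_, ?_⟩
      · have h1 := hc.2 i
        by_cases hi : i = c.1.1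
        · rw [if_pos hi, Finset.mem_Ico] at h1
          exact h1.2
        · rw [if_neg hi, Finset.mem_range] at h1
          exact h1
      · have h1 := hc.2 c.1.1
        rw [if_pos rfl, Finset.mem_Ico] at h1
        exact h1.1
    have hQ : ∀ c : ↥(gnIQ l k), ∀ i, c.1 i < l * k + 1 := by
      intro c i
      have hc := c.2
      unfold gnIQ at hc
      rw [Fintype.mem_piFinset] at hc
      exact Finset.mem_range.1 (hc i)
    rcases a with a | a | a <;> rcases b with b | b | b
    · exfalso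
      exact hab (congrArg Sum.inl (Subtype.ext (funext hpos)))
    · exfalso
      obtain ⟨t, ht⟩ := hP a
      have h1 := (hS b).1 t
      have h2 : a.1 t = b.1.2 t := hpos t
      omega
    · exfalso
      obtain ⟨t, ht⟩ := hP a
      have h1 := hQ b t
      have h2 : a.1 t = b.1 t := hpos t
      omega
    · exfalso
      obtain ⟨t, ht⟩ := hP b
      have h1 := (hS a).1 t
      have h2 : a.1.2 t = b.1 t := hpos t
      omega
    · have hne : a.1.1 ≠ b.1.1 := by
        intro h
        apply hab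
        congr 2
        apply Subtype.ext
        refine Sigma.ext h ?_
        exact heq_of_eq (funext hpos)
      have : wt (gnKap (Sum.inr (Sum.inl a) : GnI l q k))
          (gnSig (Sum.inr (Sum.inl b) : GnI l q k)) = 0 := by
        change (if Equiv.swap b.1.1 (Fin.last k) a.1.1 = Fin.last k then (1 : ℂ) else 0) = 0
        rw [if_neg (gn_swap_ne hne)]
      rw [this, zero_mul]
    · exfalso
      have h1 := (hS a).2
      have h2 := hQ b a.1.1
      have h3 : a.1.2 a.1.1 = b.1 a.1.1 := hpos a.1.1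
      omega
    · exfalso
      obtain ⟨t, ht⟩ := hP b
      have h1 := hQ a t
      have h2 : a.1 t = b.1 t := hpos t
      omega
    · exfalso
      have h1 := (hS b).2
      have h2 := hQ a b.1.1
      have h3 : a.1 b.1.1 = b.1.2 b.1.1 := hpos b.1.1
      omega
    · exfalso
      exact hab (congrArg (Sum.inr ∘ Sum.inr) (Subtype.ext (funext hpos)))
  · push Not at hpos
    obtain ⟨i, hi⟩ := hpos
    rw [Finset.prod_eq_zero (Finset.mem_univ i) (if_neg hi), mul_zero]

/-- T7 Gen.lean (import Model, Part, Step). -/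
theorem exists_family (l q k : ℕ) (hq : q ∣ l) (hl : 0 < l) (h4 : 4 ≤ q) :
    ∃ (ι : Type) (_ : Fintype ι) (v : ι → EE k),
      (∀ i, v i ∈ LinearMap.range (theta l q k)) ∧ LinearIndependent ℂ v ∧
      Fintype.card ι = ((l * k + 2 * q - 1) ^ (k + 1) - (l * k + q - 2) ^ (k + 1))
        + (k + 1) * ((q - 3) * (l * k + q - 2) ^ k) + (l * k + 1) ^ (k + 1) := by
  classical
  refine ⟨GnI l q k, inferInstance, gnW l q k, fun a => gn_mem hq hl h4 _ _ _, ?_, ?_⟩
  · rw [linearIndependent_iff']
    intro s g hg a ha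
    have h1 := congrFun (congrFun hg (gnKap a)) (fun i => (gnPos a i : ℤ) + 1)
    simp only [Finset.sum_apply, Pi.smul_apply, smul_eq_mul, Pi.zero_apply] at h1
    rw [Finset.sum_eq_single a] at h1
    · rcases mul_eq_zero.1 h1 with h | h
      · exact h
      · exact absurd h (gnW_self hq hl h4 a)
    · intro b _ hb
      rw [gnW_other hq h4 hb.symm, mul_zero]
    · intro h
      exact absurd ha h
  · have h1 : Fintype.card ↥(gnIP l q k) =
        (l * k + 2 * q - 1) ^ (k + 1) - (l * k + q - 2) ^ (k + 1) := by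
      rw [Fintype.card_coe]
      unfold gnIP
      rw [Finset.card_sdiff_of_subset, Fintype.card_piFinset, Fintype.card_piFinset]
      · simp
      · intro m hm
        rw [Fintype.mem_piFinset] at hm ⊢
        intro i
        have := Finset.mem_range.1 (hm i)
        exact Finset.mem_range.2 (by omega)
    have h2 : Fintype.card ↥(gnIS l q k) = (k + 1) * ((q - 3) * (l * k + q - 2) ^ k) := by
      rw [Fintype.card_coe]
      unfold gnIS
      rw [Finset.card_sigma]
      have h3 : ∀ t : Fin (k + 1), (Fintype.piFinset (fun i : Fin (k + 1) =>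
          if i = t then Finset.Ico (l * k + 1) (l * k + q - 2)
          else Finset.range (l * k + q - 2))).card = (q - 3) * (l * k + q - 2) ^ k := by
        intro t
        rw [Fintype.card_piFinset, ← Finset.mul_prod_erase _ _ (Finset.mem_univ t), if_pos rfl,
          Nat.card_Ico]
        have h4' : ∀ i ∈ Finset.univ.erase t, (if i = t then
            Finset.Ico (l * k + 1) (l * k + q - 2) else Finset.range (l * k + q - 2)).card =
            l * k + q - 2 := by
          intro i hi
          rw [if_neg (Finset.ne_of_mem_erase hi), Finset.card_range]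
        rw [Finset.prod_congr rfl h4', Finset.prod_const, Finset.card_erase_of_mem
          (Finset.mem_univ t), Finset.card_univ, Fintype.card_fin]
        congr 1
        omega
      rw [Finset.sum_congr rfl fun t _ => h3 t, Finset.sum_const, Finset.card_univ,
        Fintype.card_fin, smul_eq_mul]
    have h3 : Fintype.card ↥(gnIQ l k) = (l * k + 1) ^ (k + 1) := by
      rw [Fintype.card_coe]
      unfold gnIQ
      rw [Fintype.card_piFinset]
      simp
    rw [Fintype.card_sum, Fintype.card_sum, h1, h2, h3]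
    ring

end Pool.Agent.Lib.MP_623d7d_al
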