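import Mathlib
import Pool.Agent.Lib.MP_623d7d_al.Defs

/-!
# Invariance of the coefficients of invariant polynomials (task T3)
-/

set_option autoImplicit false

open MvPolynomial

namespace Pool.Agent.Lib.MP_623d7d_al

/-- the monomial matrix with entries `t i` at `(i, σ i)` -/
noncomputable def inv_mono {n : ℕ} (σ : Equiv.Perm (Fin n)) (t : Fin n → ℂ) (ht : ∀ i, t i ≠ 0) :
    GL (Fin n) ℂ where
  val := Matrix.of fun i j => if j = σ i then t i else 0
  inv := Matrix.of fun j i => if j = σ i then (t i)⁻¹ else 0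
  val_inv := by
    ext i j
    rw [Matrix.mul_apply, Matrix.one_apply]
    simp only [Matrix.of_apply]
    rw [Finset.sum_eq_single (σ i)]
    · by_cases h : i = j
      · subst h
        simp [ht i]
      · have : σ i ≠ σ j := fun e => h (σ.injective e)
        simp [h, this]
    · intro b _ hb
      simp [hb]
    · intro h
      exact absurd (Finset.mem_univ _) h
  inv_val := by
    ext j k
    rw [Matrix.mul_apply, Matrix.one_apply]
    simp only [Matrix.of_apply]
    rw [Finset.sum_eq_single (σ.symm j)]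
    · by_cases h : j = k
      · subst h
        simp [ht]
      · have : k ≠ j := Ne.symm h
        simp [h, this]
    · intro b _ hb
      have : j ≠ σ b := fun e => hb (by rw [e]; simp)
      simp [this]
    · intro h
      exact absurd (Finset.mem_univ _) h

theorem inv_mono_apply {n : ℕ} (σ : Equiv.Perm (Fin n)) (t : Fin n → ℂ) (ht : ∀ i, t i ≠ 0)
    (i j : Fin n) : inv_mono σ t ht i j = if j = σ i then t i else 0 := rfl

theorem inv_mono_inv_apply {n : ℕ} (σ : Equiv.Perm (Fin n)) (t : Fin n → ℂ) (ht : ∀ i, t i ≠ 0)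
    (i j : Fin n) : ((inv_mono σ t ht)⁻¹ : GL (Fin n) ℂ) j i = if j = σ i then (t i)⁻¹ else 0 :=
  rfl

theorem inv_mono_mem {l m n : ℕ} (σ : Equiv.Perm (Fin n)) (t : Fin n → ℂ) (ht : ∀ i, t i ≠ 0)
    (h1 : ∀ i, t i ^ l = 1) (h2 : (∏ i, t i) ^ (l / m) = 1) : inv_mono σ t ht ∈ G l m n := by
  refine ⟨?_, ?_, ?_, ?_⟩
  · intro i
    refine ⟨σ i, ?_, ?_⟩
    · simp only [inv_mono_apply, if_true]
      exact ht i
    · intro j hj
      simp only [inv_mono_apply] at hj
      by_contra h
      rw [if_neg h] at hj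
      exact hj rfl
  · intro j
    refine ⟨σ.symm j, ?_, ?_⟩
    · simp only [inv_mono_apply, Equiv.apply_symm_apply, if_true]
      exact ht _
    · intro i hi
      simp only [inv_mono_apply] at hi
      by_contra h
      rw [if_neg] at hi
      · exact hi rfl
      · intro e
        apply h
        rw [e]
        simp
  · intro i j h
    simp only [inv_mono_apply] at h ⊢
    by_cases hj : j = σ i
    · rw [if_pos hj]
      exact h1 i
    · rw [if_neg hj] at h
      exact absurd rfl h
  · have h3 : ∀ i, (∏ j, if inv_mono σ t ht i j = 0 then 1 else inv_mono σ t ht i j) = t i := by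
      intro i
      rw [Finset.prod_eq_single (σ i)]
      · simp only [inv_mono_apply, if_true]
        rw [if_neg (ht i)]
      · intro b _ hb
        have h0 : inv_mono σ t ht i b = 0 := by rw [inv_mono_apply, if_neg hb]
        rw [if_pos h0]
      · intro h
        exact absurd (Finset.mem_univ _) h
    rw [Finset.prod_congr rfl fun i _ => h3 i]
    exact h2

theorem act_mono {n : ℕ} (σ : Equiv.Perm (Fin n)) (t : Fin n → ℂ) (ht : ∀ i, t i ≠ 0) :
    act (inv_mono σ t ht) = aeval (Sum.elim (fun i => C (t i)⁻¹ * X (Sum.inl (σ i)))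
      (fun i => C (t i) * X (Sum.inr (σ i)))) := by
  unfold act
  congr 1
  funext v
  rcases v with i | i
  · simp only [Sum.elim_inl]
    rw [Finset.sum_eq_single (σ i)]
    · rw [inv_mono_inv_apply, if_pos rfl]
    · intro b _ hb
      rw [inv_mono_inv_apply, if_neg hb]
      simp
    · intro h
      exact absurd (Finset.mem_univ _) h
  · simp only [Sum.elim_inr]
    rw [Finset.sum_eq_single (σ i)]
    · rw [inv_mono_apply, if_pos rfl]
    · intro b _ hb
      rw [inv_mono_apply, if_neg hb]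
      simp
    · intro h
      exact absurd (Finset.mem_univ _) h

theorem coeff_scale {τ : Type*} [Fintype τ] (c : τ → ℂ) (f : MvPolynomial τ ℂ) (s : τ →₀ ℕ) :
    coeff s (aeval (fun v => C (c v) * X v : τ → MvPolynomial τ ℂ) f) =
      (∏ v, c v ^ s v) * coeff s f := by
  classical
  induction f using MvPolynomial.induction_on' with
  | monomial u a =>
    have h : aeval (fun v => C (c v) * X v : τ → MvPolynomial τ ℂ) (monomial u a) =
        monomial u ((∏ v, c v ^ u v) * a) := by
      rw [aeval_monomial, algebraMap_eq]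
      have h1 : u.prod (fun i k => (C (c i) * X i : MvPolynomial τ ℂ) ^ k) =
          C (∏ v, c v ^ u v) * monomial u 1 := by
        rw [Finsupp.prod_fintype _ _ (fun i => by simp)]
        rw [monomial_eq, map_one, one_mul, Finsupp.prod_fintype _ _ (fun i => by simp), map_prod,
          ← Finset.prod_mul_distrib]
        refine Finset.prod_congr rfl fun i _ => ?_
        rw [mul_pow, map_pow]
      rw [h1, ← mul_assoc, ← C_mul, C_mul_monomial, mul_one, mul_comm a]
    rw [h, coeff_monomial, coeff_monomial]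
    by_cases hu : u = s
    · subst hu
      simp
    · simp [hu]
  | add p q hp hq =>
    rw [map_add, coeff_add, coeff_add, hp, hq, mul_add]

/-- T3: the coefficients are invariant under simultaneous permutations. -/
theorem coeff_symm {l m n : ℕ} (hl : 0 < l) {f : MvPolynomial (Fin n ⊕ Fin n) ℂ}
    (hf : ∀ g ∈ G l m n, act g f = f) (π : Equiv.Perm (Fin n)) (s : (Fin n ⊕ Fin n) →₀ ℕ) :
    coeff (Finsupp.mapDomain (Sum.map π π) s) f = coeff s f := by
  have hone : ∀ i : Fin n, (fun _ : Fin n => (1 : ℂ)) i ≠ 0 := fun _ => one_ne_zero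
  have h1 := hf _ (inv_mono_mem (l := l) (m := m) π (fun _ => 1) hone (by simp) (by simp))
  rw [act_mono] at h1
  have h2 : (aeval (Sum.elim (fun i => C (1 : ℂ)⁻¹ * X (Sum.inl (π i)))
      (fun i => C (1 : ℂ) * X (Sum.inr (π i)))) : MvPolynomial (Fin n ⊕ Fin n) ℂ →ₐ[ℂ] _) =
      rename (Sum.map π π) := by
    ext v
    rcases v with i | i <;> simp
  rw [h2] at h1
  have hinj : Function.Injective (Sum.map π π) := by
    exact Sum.map_injective.2 ⟨π.injective, π.injective⟩
  have h3 := coeff_rename_mapDomain (Sum.map π π) hinj f s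
  rw [h1] at h3
  exact h3

theorem coeff_diag {l m n : ℕ} {f : MvPolynomial (Fin n ⊕ Fin n) ℂ}
    (hf : ∀ g ∈ G l m n, act g f = f) (t : Fin n → ℂ) (ht : ∀ i, t i ≠ 0)
    (h1 : ∀ i, t i ^ l = 1) (h2 : (∏ i, t i) ^ (l / m) = 1) (s : (Fin n ⊕ Fin n) →₀ ℕ)
    (hs : coeff s f ≠ 0) : ∏ i, t i ^ ((s (Sum.inl i) : ℤ) - s (Sum.inr i)) = 1 := by
  have h3 := hf _ (inv_mono_mem (l := l) (m := m) 1 t ht h1 h2)
  rw [act_mono] at h3
  have h4 : (Sum.elim (fun i => C (t i)⁻¹ * X (Sum.inl ((1 : Equiv.Perm (Fin n)) i)))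
      (fun i => C (t i) * X (Sum.inr ((1 : Equiv.Perm (Fin n)) i))) :
        Fin n ⊕ Fin n → MvPolynomial (Fin n ⊕ Fin n) ℂ) =
      fun v => C (Sum.elim (fun i => (t i)⁻¹) t v) * X v := by
    funext v
    rcases v with i | i <;> simp
  rw [h4] at h3
  have h5 := coeff_scale (Sum.elim (fun i => (t i)⁻¹) t) f s
  rw [h3] at h5
  have h6 : (∏ v, (Sum.elim (fun i => (t i)⁻¹) t v) ^ s v) = 1 := by
    have : ((∏ v, (Sum.elim (fun i => (t i)⁻¹) t v) ^ s v) - 1) * coeff s f = 0 := by
      rw [sub_mul, ← h5]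
      ring
    rcases mul_eq_zero.1 this with h | h
    · linear_combination h
    · exact absurd h hs
  rw [Fintype.prod_sum_type] at h6
  simp only [Sum.elim_inl, Sum.elim_inr] at h6
  rw [← Finset.prod_mul_distrib] at h6
  have h7 : ∏ i, t i ^ ((s (Sum.inl i) : ℤ) - s (Sum.inr i)) =
      (∏ i, (t i)⁻¹ ^ s (Sum.inl i) * t i ^ s (Sum.inr i))⁻¹ := by
    rw [← Finset.prod_inv_distrib]
    refine Finset.prod_congr rfl fun i _ => ?_
    rw [zpow_sub₀ (ht i), zpow_natCast, zpow_natCast, inv_pow, mul_inv, inv_inv, div_eq_mul_inv]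
  rw [h7, h6, inv_one]

/-- T3: congruences. -/
theorem coeff_cong {l m n : ℕ} (hl : 0 < l) {f : MvPolynomial (Fin n ⊕ Fin n) ℂ}
    (hf : ∀ g ∈ G l m n, act g f = f) (s : (Fin n ⊕ Fin n) →₀ ℕ) (hs : coeff s f ≠ 0)
    (i j : Fin n) :
    (l : ℤ) ∣ ((s (Sum.inl i) : ℤ) - s (Sum.inr i)) - ((s (Sum.inl j) : ℤ) - s (Sum.inr j)) := by
  by_cases hij : i = j
  · subst hij
    simp
  have hζ := Complex.isPrimitiveRoot_exp l hl.ne'
  set ζ := Complex.exp (2 * Real.pi * Complex.I / l) with hζd
  have hζ0 : ζ ≠ 0 := Complex.exp_ne_zero _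
  set t : Fin n → ℂ := fun a => if a = i then ζ else if a = j then ζ⁻¹ else 1 with ht
  have ht0 : ∀ a, t a ≠ 0 := by
    intro a
    simp only [ht]
    split_ifs
    · exact hζ0
    · exact inv_ne_zero hζ0
    · exact one_ne_zero
  have hji : j ≠ i := Ne.symm hij
  have hprod : ∀ e : Fin n → ℤ, ∏ a, t a ^ e a = ζ ^ (e i - e j) := by
    intro e
    have h1 : ∏ a, t a ^ e a = ∏ a ∈ ({i, j} : Finset (Fin n)), t a ^ e a := by
      symm
      apply Finset.prod_subset (Finset.subset_univ _)
      intro a _ ha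
      simp only [Finset.mem_insert, Finset.mem_singleton, not_or] at ha
      simp only [ht]
      rw [if_neg ha.1, if_neg ha.2, one_zpow]
    rw [h1, Finset.prod_pair hij]
    simp only [ht, if_true]
    rw [if_neg hji, zpow_sub₀ hζ0, inv_zpow, div_eq_mul_inv]
  have h1 := coeff_diag (l := l) (m := m) hf t ht0 (by
    intro a
    simp only [ht]
    split_ifs
    · exact hζ.pow_eq_one
    · rw [inv_pow, hζ.pow_eq_one, inv_one]
    · exact one_pow _) (by
    have := hprod (fun _ => 1)
    simp only [zpow_one, sub_self, zpow_zero] at this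
    rw [this, one_pow]) s hs
  rw [hprod] at h1
  exact (hζ.zpow_eq_one_iff_dvd _).1 h1

/-- T3: divisibility. -/
theorem coeff_dvd {l m n : ℕ} (hm : 0 < m) (hl : 0 < l) (hml : m ∣ l)
    {f : MvPolynomial (Fin n ⊕ Fin n) ℂ}
    (hf : ∀ g ∈ G l m n, act g f = f) (s : (Fin n ⊕ Fin n) →₀ ℕ) (hs : coeff s f ≠ 0)
    (i : Fin n) :
    ((l / m : ℕ) : ℤ) ∣ (s (Sum.inl i) : ℤ) - s (Sum.inr i) := by
  have hζ := Complex.isPrimitiveRoot_exp l hl.ne'
  set ζ := Complex.exp (2 * Real.pi * Complex.I / l) with hζd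
  have hζ0 : ζ ≠ 0 := Complex.exp_ne_zero _
  set t : Fin n → ℂ := fun a => if a = i then ζ ^ m else 1 with ht
  have ht0 : ∀ a, t a ≠ 0 := by
    intro a
    simp only [ht]
    split_ifs
    · exact pow_ne_zero _ hζ0
    · exact one_ne_zero
  have hprod : ∀ e : Fin n → ℤ, ∏ a, t a ^ e a = (ζ ^ m) ^ (e i) := by
    intro e
    rw [Finset.prod_eq_single i]
    · simp only [ht, if_true]
    · intro b _ hb
      simp only [ht]
      rw [if_neg hb, one_zpow]
    · intro h
      exact absurd (Finset.mem_univ _) h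
  have h1 := coeff_diag (l := l) (m := m) hf t ht0 (by
    intro a
    simp only [ht]
    split_ifs
    · rw [← pow_mul, mul_comm, pow_mul, hζ.pow_eq_one, one_pow]
    · exact one_pow _) (by
    have := hprod (fun _ => 1)
    simp only [zpow_one] at this
    rw [this, ← pow_mul, Nat.mul_div_cancel' hml, hζ.pow_eq_one]) s hs
  rw [hprod] at h1
  rw [← zpow_natCast, ← zpow_mul] at h1
  have h2 := (hζ.zpow_eq_one_iff_dvd _).1 h1
  obtain ⟨q, hq⟩ := hml
  have hq' : l / m = q := by rw [hq, Nat.mul_div_cancel_left _ hm]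
  rw [hq']
  rw [hq] at h2
  push_cast at h2
  exact Int.dvd_of_mul_dvd_mul_left (by exact_mod_cast hm.ne') h2

end Pool.Agent.Lib.MP_623d7d_al
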