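import Mathlib
import Pool.Agent.Lib.MP_623d7d_al.Model
import Pool.Agent.Lib.MP_623d7d_al.Part

/-!
# Invariants act on the generator by scalars (task T5)
-/

set_option autoImplicit false

open MvPolynomial

namespace Pool.Agent.Lib.MP_623d7d_al

namespace Scal

variable {l q k : ℕ}

private lemma theta_apply (f : MvPolynomial (Fin (k + 1) ⊕ Fin (k + 1)) ℂ) (κ : Kap k)
    (m : Fin (k + 1) → ℤ) : theta l q k f κ m = ∑ s ∈ f.support, coeff s f *
      TH l q (fun i => s (Sum.inl i)) (fun i => s (Sum.inr i)) κ m := by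
  have h1 : ∀ (s : (Fin (k + 1) ⊕ Fin (k + 1)) →₀ ℕ) (a : ℂ), theta l q k (monomial s a) =
      a • TH l q (fun i => s (Sum.inl i)) (fun i => s (Sum.inr i)) := by
    intro s a
    have h2 : monomial s a = a • (basisMonomials (Fin (k + 1) ⊕ Fin (k + 1)) ℂ) s := by
      rw [coe_basisMonomials, smul_monomial, smul_eq_mul, mul_one]
    rw [h2, map_smul]
    congr 1
    exact Module.Basis.constr_basis _ _ _ _
  conv_lhs => rw [f.as_sum, map_sum]
  simp only [h1, Finset.sum_apply, Pi.smul_apply, smul_eq_mul]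

private lemma ty_map (π : Equiv.Perm (Fin (k + 1))) (κ : Kap k) :
    ty (Sum.map id π κ) = ty κ := by
  rcases κ with (b | b) | t <;> rfl

private lemma wt_map (π σ : Equiv.Perm (Fin (k + 1))) (κ : Kap k) :
    wt (Sum.map id (π⁻¹ : Equiv.Perm (Fin (k + 1))) κ) (σ * π) = wt κ σ := by
  rcases κ with b | t
  · rfl
  · simp [wt]

private lemma TH_equiv (α β : Fin (k + 1) → ℕ) (π : Equiv.Perm (Fin (k + 1))) (κ : Kap k)
    (m : Fin (k + 1) → ℤ) :
    TH l q (fun i => α (π i)) (fun i => β (π i))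
      (Sum.map id (π⁻¹ : Equiv.Perm (Fin (k + 1))) κ) (fun i => m (π i)) =
      ((Equiv.Perm.sign π : ℤ) : ℂ) * TH l q α β κ m := by
  unfold TH
  rw [← Equiv.sum_comp (Equiv.mulRight π), Finset.mul_sum]
  refine Finset.sum_congr rfl fun σ _ => ?_
  rw [Equiv.coe_mulRight, wt_map, ty_map]
  have h1 : ∏ i, BB l q k (ty κ) (α (π i)) (β (π i)) (m (π i)) (site l q ((σ * π) i)) =
      ∏ i, BB l q k (ty κ) (α i) (β i) (m i) (site l q (σ i)) :=
    Equiv.prod_comp π fun i => BB l q k (ty κ) (α i) (β i) (m i) (site l q (σ i))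
  rw [h1, Equiv.Perm.sign_mul]
  push_cast
  ring

private lemma theta_equiv (f : MvPolynomial (Fin (k + 1) ⊕ Fin (k + 1)) ℂ)
    (hsymm : ∀ (π : Equiv.Perm (Fin (k + 1))) (s : (Fin (k + 1) ⊕ Fin (k + 1)) →₀ ℕ),
      coeff (Finsupp.mapDomain (Sum.map π π) s) f = coeff s f)
    (π : Equiv.Perm (Fin (k + 1))) (κ : Kap k) (m : Fin (k + 1) → ℤ) :
    theta l q k f κ m = ((Equiv.Perm.sign π : ℤ) : ℂ) *
      theta l q k f (Sum.map id (π⁻¹ : Equiv.Perm (Fin (k + 1))) κ) (fun i => m (π i)) := by
  rw [theta_apply, theta_apply, Finset.mul_sum]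
  have hinv : ∀ (π : Equiv.Perm (Fin (k + 1))) (s : (Fin (k + 1) ⊕ Fin (k + 1)) →₀ ℕ),
      Finsupp.mapDomain (Sum.map π π) (Finsupp.mapDomain (Sum.map (π⁻¹ : Equiv.Perm (Fin (k + 1)))
        (π⁻¹ : Equiv.Perm (Fin (k + 1)))) s) = s := by
    intro π s
    rw [← Finsupp.mapDomain_comp, Sum.map_comp_map]
    have : (π : Fin (k + 1) → Fin (k + 1)) ∘ (π⁻¹ : Equiv.Perm (Fin (k + 1))) = id := by
      ext i; simp
    rw [this, Sum.map_id_id, Finsupp.mapDomain_id]
  refine Finset.sum_nbij'
    (fun s => Finsupp.mapDomain (Sum.map (π⁻¹ : Equiv.Perm (Fin (k + 1)))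
      (π⁻¹ : Equiv.Perm (Fin (k + 1)))) s)
    (fun s => Finsupp.mapDomain (Sum.map π π) s) ?_ ?_ ?_ ?_ ?_
  · intro s hs
    rw [mem_support_iff] at hs ⊢
    rwa [hsymm]
  · intro s hs
    rw [mem_support_iff] at hs ⊢
    rwa [hsymm]
  · intro s _
    exact hinv π s
  · intro s _
    have := hinv π⁻¹ s
    rwa [inv_inv] at this
  · intro s _
    rw [hsymm]
    have hinj : Function.Injective (Sum.map (π⁻¹ : Equiv.Perm (Fin (k + 1)))
        (π⁻¹ : Equiv.Perm (Fin (k + 1)))) :=
      (Equiv.injective _).sumMap (Equiv.injective _)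
    have h1 : ∀ i, (Finsupp.mapDomain (Sum.map (π⁻¹ : Equiv.Perm (Fin (k + 1)))
        (π⁻¹ : Equiv.Perm (Fin (k + 1)))) s) (Sum.inl i) = s (Sum.inl (π i)) := by
      intro i
      have := Finsupp.mapDomain_apply hinj s (Sum.inl (π i))
      simpa using this
    have h2 : ∀ i, (Finsupp.mapDomain (Sum.map (π⁻¹ : Equiv.Perm (Fin (k + 1)))
        (π⁻¹ : Equiv.Perm (Fin (k + 1)))) s) (Sum.inr i) = s (Sum.inr (π i)) := by
      intro i
      have := Finsupp.mapDomain_apply hinj s (Sum.inr (π i))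
      simpa using this
    simp only [h1, h2]
    have h3 := TH_equiv (l := l) (q := q) (fun i => s (Sum.inl i)) (fun i => s (Sum.inr i)) π κ m
    rw [h3]
    have h4 : ((Equiv.Perm.sign π : ℤ) : ℂ) * ((Equiv.Perm.sign π : ℤ) : ℂ) = 1 := by
      rcases Int.units_eq_one_or (Equiv.Perm.sign π) with h | h <;> rw [h] <;> simp
    calc coeff s f * TH l q (fun i => s (Sum.inl i)) (fun i => s (Sum.inr i)) κ m
        = (((Equiv.Perm.sign π : ℤ) : ℂ) * ((Equiv.Perm.sign π : ℤ) : ℂ)) *
          (coeff s f * TH l q (fun i => s (Sum.inl i)) (fun i => s (Sum.inr i)) κ m) := by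
          rw [h4, one_mul]
      _ = _ := by ring

private lemma exists_term {f : MvPolynomial (Fin (k + 1) ⊕ Fin (k + 1)) ℂ} {κ : Kap k}
    {m : Fin (k + 1) → ℤ} (h : theta l q k f κ m ≠ 0) :
    ∃ s : (Fin (k + 1) ⊕ Fin (k + 1)) →₀ ℕ, coeff s f ≠ 0 ∧ ∃ σ : Equiv.Perm (Fin (k + 1)),
      wt κ σ ≠ 0 ∧ ∀ i, BB l q k (ty κ) (s (Sum.inl i)) (s (Sum.inr i)) (m i)
        (site l q (σ i)) ≠ 0 := by
  rw [theta_apply] at h
  obtain ⟨s, hs, h1⟩ := Finset.exists_ne_zero_of_sum_ne_zero h
  refine ⟨s, left_ne_zero_of_mul h1, ?_⟩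
  have h2 := right_ne_zero_of_mul h1
  unfold TH at h2
  obtain ⟨σ, _, h3⟩ := Finset.exists_ne_zero_of_sum_ne_zero h2
  refine ⟨σ, right_ne_zero_of_mul (left_ne_zero_of_mul h3), fun i => ?_⟩
  exact Finset.prod_ne_zero_iff.1 (right_ne_zero_of_mul h3) i (Finset.mem_univ i)

private lemma site_last : site l q (Fin.last k) = l * k + q := by
  simp [site]; ring

private lemma site_lt (hl : 0 < l) {j : Fin (k + 1)} (hj : j ≠ Fin.last k) :
    site l q j + l ≤ l * k + q := by
  have h1 : (j : ℕ) < k := Fin.val_lt_last hj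
  have h2 : ((j : ℕ) : ℤ) + 1 ≤ k := by exact_mod_cast h1
  have h3 : (0 : ℤ) < l := by exact_mod_cast hl
  unfold site
  nlinarith

private lemma site_inj (hl : 0 < l) : Function.Injective (site l q : Fin (k + 1) → ℤ) := by
  intro i j h
  unfold site at h
  have h3 : (l : ℤ) ≠ 0 := by exact_mod_cast hl.ne'
  have h4 : ((i : ℕ) : ℤ) = ((j : ℕ) : ℤ) := by
    have : (l : ℤ) * (i : ℕ) = l * (j : ℕ) := by linarith
    exact mul_left_cancel₀ h3 this
  exact Fin.ext (by exact_mod_cast h4)

/-- the arithmetic consequences of a nonzero value -/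
private lemma arith (hq : q ∣ l) (h4 : 4 ≤ q)
    {f : MvPolynomial (Fin (k + 1) ⊕ Fin (k + 1)) ℂ}
    (hcong : ∀ s : (Fin (k + 1) ⊕ Fin (k + 1)) →₀ ℕ, coeff s f ≠ 0 → ∀ i j,
      (l : ℤ) ∣ ((s (Sum.inl i) : ℤ) - s (Sum.inr i)) - ((s (Sum.inl j) : ℤ) - s (Sum.inr j)))
    (hdvd : ∀ s : (Fin (k + 1) ⊕ Fin (k + 1)) →₀ ℕ, coeff s f ≠ 0 → ∀ i,
      (q : ℤ) ∣ (s (Sum.inl i) : ℤ) - s (Sum.inr i)) {κ : Kap k}
    {m : Fin (k + 1) → ℤ} (h : theta l q k f κ m ≠ 0) :
    (∀ i, 1 ≤ m i ∧ m i ≤ l * k + 2 * q - 1 ∧ (q : ℤ) ∣ m i) ∧ ∀ i j, (l : ℤ) ∣ m i - m j := by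
  obtain ⟨s, hs, σ, _, hB⟩ := exists_term h
  have hql : (q : ℤ) ∣ l := by exact_mod_cast hq
  have hsite : ∀ j : Fin (k + 1), 1 ≤ site l q j ∧ site l q j ≤ l * k + 2 * q - 1 := by
    intro j
    have h1 : (j : ℕ) ≤ k := Nat.lt_succ_iff.1 j.2
    have h2 : ((j : ℕ) : ℤ) ≤ k := by exact_mod_cast h1
    have h3 : (4 : ℤ) ≤ q := by exact_mod_cast h4
    have h5 : (l : ℤ) * (j : ℕ) ≤ l * k := mul_le_mul_of_nonneg_left h2 (by positivity)
    have h6 : (0 : ℤ) ≤ l * (j : ℕ) := by positivity
    unfold site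
    constructor <;> linarith
  have hbox := fun i => BB_box hq h4 (ty κ) _ _ _ _ (hsite (σ i)).1 (hsite (σ i)).2 (hB i)
  have hm : ∀ i, m i = q + l * ((σ i : ℕ) : ℤ) + ((s (Sum.inl i) : ℤ) - s (Sum.inr i)) := by
    intro i
    rw [(hbox i).1]
    unfold site
    ring
  refine ⟨fun i => ⟨(hbox i).2.1, (hbox i).2.2, ?_⟩, fun i j => ?_⟩
  · rw [hm i]
    exact dvd_add (dvd_add dvd_rfl (hql.mul_right _)) (hdvd s hs i)
  · rw [hm i, hm j]
    have h1 := hcong s hs i j
    have h2 : (l : ℤ) ∣ l * (((σ i : ℕ) : ℤ) - ((σ j : ℕ) : ℤ)) := dvd_mul_right _ _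
    have h3 := dvd_add h2 h1
    have h5 : (q : ℤ) + l * ((σ i : ℕ) : ℤ) + ((s (Sum.inl i) : ℤ) - s (Sum.inr i)) -
        (q + l * ((σ j : ℕ) : ℤ) + ((s (Sum.inl j) : ℤ) - s (Sum.inr j))) =
        l * (((σ i : ℕ) : ℤ) - ((σ j : ℕ) : ℤ)) +
        (((s (Sum.inl i) : ℤ) - s (Sum.inr i)) - ((s (Sum.inl j) : ℤ) - s (Sum.inr j))) := by
      ring
    rw [h5]
    exact h3

/-- (1) an injective configuration is a permutation of the sites -/
private lemma exists_perm (hq : q ∣ l) (hl : 0 < l) (h4 : 4 ≤ q) {m : Fin (k + 1) → ℤ}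
    (hm : ∀ i, 1 ≤ m i ∧ m i ≤ l * k + 2 * q - 1 ∧ (q : ℤ) ∣ m i)
    (hc : ∀ i j, (l : ℤ) ∣ m i - m j) (hi : Function.Injective m) :
    ∃ τ : Equiv.Perm (Fin (k + 1)), ∀ i, m i = site l q (τ i) := by
  have hl' : (0 : ℤ) < l := by exact_mod_cast hl
  have hq' : (4 : ℤ) ≤ q := by exact_mod_cast h4
  have hql : (q : ℤ) ∣ l := by exact_mod_cast hq
  have hqle : (q : ℤ) ≤ l := Int.le_of_dvd hl' hql
  -- residue in [1, l]
  set r : ℤ := (m 0 - 1) % l + 1 with hr
  have hr1 : 1 ≤ r := by
    have := Int.emod_nonneg (m 0 - 1) hl'.ne'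
    omega
  have hr2 : r ≤ l := by
    have := Int.emod_lt_of_pos (m 0 - 1) hl'
    omega
  have hrm : ∀ i, (l : ℤ) ∣ m i - r := by
    intro i
    have h1 : (l : ℤ) ∣ m 0 - r := by
      have h2 : m 0 - r = l * ((m 0 - 1) / l) := by
        have := Int.emod_add_mul_ediv (m 0 - 1) l
        rw [hr]; linarith
      rw [h2]; exact dvd_mul_right _ _
    have h2 := dvd_add (hc i 0) h1
    have h5 : m i - m 0 + (m 0 - r) = m i - r := by ring
    rwa [h5] at h2
  choose a ha using hrm
  have ha0 : ∀ i, 0 ≤ a i := by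
    intro i
    by_contra h
    have h1 : a i ≤ -1 := by omega
    have h2 := (hm i).1
    have h3 := ha i
    nlinarith
  have hainj : Function.Injective a := by
    intro i j hij
    apply hi
    have h1 := ha i
    have h2 := ha j
    rw [hij] at h1
    linarith
  have hqr : (q : ℤ) ∣ r := by
    have h1 : r = m 0 - l * a 0 := by have := ha 0; linarith
    rw [h1]
    exact dvd_sub (hm 0).2.2 (hql.mul_right _)
  have hex : ∃ i, (k : ℤ) ≤ a i := by
    by_contra hcon
    push Not at hcon
    have hlt : ∀ i, (a i).toNat < k := by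
      intro i
      have h1 := hcon i
      have h2 := ha0 i
      omega
    have hinj : Function.Injective fun i : Fin (k + 1) => (⟨(a i).toNat, hlt i⟩ : Fin k) := by
      intro i j hij
      apply hainj
      have h1 : (a i).toNat = (a j).toNat := by simpa using hij
      have h2 := ha0 i
      have h3 := ha0 j
      omega
    have := Fintype.card_le_of_injective _ hinj
    simp at this
  have hrq : r = q := by
    obtain ⟨i, hki⟩ := hex
    have h1 := ha i
    have h2 := (hm i).2.1
    have h3 : (l : ℤ) * k ≤ l * a i := mul_le_mul_of_nonneg_left hki hl'.le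
    have h5 : r ≤ 2 * q - 1 := by linarith
    obtain ⟨c, hc⟩ := hqr
    have hc1 : 0 < c := by
      by_contra hcon
      have : c ≤ 0 := by omega
      nlinarith
    have hc2 : c < 2 := by
      by_contra hcon
      have : 2 ≤ c := by omega
      nlinarith
    have hc3 : c = 1 := by omega
    rw [hc, hc3, mul_one]
  have hak : ∀ i, a i ≤ k := by
    intro i
    by_contra hcon
    have h1 : (k : ℤ) + 1 ≤ a i := by omega
    have h2 := ha i
    have h3 := (hm i).2.1
    have h5 : (l : ℤ) * (k + 1) ≤ l * a i := mul_le_mul_of_nonneg_left h1 hl'.le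
    rw [hrq] at h2
    nlinarith
  have hlt : ∀ i, (a i).toNat < k + 1 := by
    intro i
    have h1 := hak i
    have h2 := ha0 i
    omega
  have hinj : Function.Injective fun i : Fin (k + 1) => (⟨(a i).toNat, hlt i⟩ : Fin (k + 1)) := by
    intro i j hij
    apply hainj
    have h1 : (a i).toNat = (a j).toNat := by simpa using hij
    have h2 := ha0 i
    have h3 := ha0 j
    omega
  refine ⟨Equiv.ofBijective _ (Finite.injective_iff_bijective.1 hinj), fun i => ?_⟩
  rw [Equiv.ofBijective_apply]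
  unfold site
  have h1 := ha i
  have h2 : (((a i).toNat : ℕ) : ℤ) = a i := Int.toNat_of_nonneg (ha0 i)
  simp only
  rw [h2]
  linarith

/-- the structure of the values of an invariant on the generator -/
private structure Good (l q k : ℕ) (φ : EE k) : Prop where
  eqv : ∀ (π : Equiv.Perm (Fin (k + 1))) (κ : Kap k) (m : Fin (k + 1) → ℤ),
    φ κ m = ((Equiv.Perm.sign π : ℤ) : ℂ) *
      φ (Sum.map id (π⁻¹ : Equiv.Perm (Fin (k + 1))) κ) (fun i => m (π i))
  supp : ∀ κ m, φ κ m ≠ 0 → ∃ τ : Equiv.Perm (Fin (k + 1)), ∀ i, m i = site l q (τ i)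
  val : ∀ b, φ (Sum.inl b) (site l q) = φ (Sum.inl true) (site l q)
  val' : ∀ t, φ (Sum.inr t) (site l q) =
    if t = Fin.last k then φ (Sum.inl true) (site l q) else 0

private lemma Good.eq {φ ψ : EE k} (h : Good l q k φ) (h' : Good l q k ψ)
    (h1 : ψ (Sum.inl true) (site l q) = 1) : φ = φ (Sum.inl true) (site l q) • ψ := by
  have key : ∀ κ, φ κ (site l q) = φ (Sum.inl true) (site l q) * ψ κ (site l q) := by
    intro κ
    rcases κ with b | t
    · rw [h.val b, h'.val b, h1, mul_one]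
    · rw [h.val' t, h'.val' t, h1]
      split_ifs <;> simp
  funext κ m
  simp only [Pi.smul_apply, smul_eq_mul]
  by_cases hm : ∃ τ : Equiv.Perm (Fin (k + 1)), ∀ i, m i = site l q (τ i)
  · obtain ⟨τ, hτ⟩ := hm
    have h2 : (fun i => m ((τ⁻¹ : Equiv.Perm (Fin (k + 1))) i)) = site l q := by
      funext i
      rw [hτ]
      simp
    rw [h.eqv τ⁻¹ κ m, h'.eqv τ⁻¹ κ m, h2, key]
    ring
  · have h2 : φ κ m = 0 := by
      by_contra h3
      exact hm (h.supp κ m h3)
    have h3 : ψ κ m = 0 := by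
      by_contra h3
      exact hm (h'.supp κ m h3)
    rw [h2, h3, mul_zero]

private lemma good (hq : q ∣ l) (hl : 0 < l) (h4 : 4 ≤ q)
    (f : MvPolynomial (Fin (k + 1) ⊕ Fin (k + 1)) ℂ)
    (hsymm : ∀ (π : Equiv.Perm (Fin (k + 1))) (s : (Fin (k + 1) ⊕ Fin (k + 1)) →₀ ℕ),
      coeff (Finsupp.mapDomain (Sum.map π π) s) f = coeff s f)
    (hcong : ∀ s : (Fin (k + 1) ⊕ Fin (k + 1)) →₀ ℕ, coeff s f ≠ 0 → ∀ i j,
      (l : ℤ) ∣ ((s (Sum.inl i) : ℤ) - s (Sum.inr i)) - ((s (Sum.inl j) : ℤ) - s (Sum.inr j)))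
    (hdvd : ∀ s : (Fin (k + 1) ⊕ Fin (k + 1)) →₀ ℕ, coeff s f ≠ 0 → ∀ i,
      (q : ℤ) ∣ (s (Sum.inl i) : ℤ) - s (Sum.inr i)) : Good l q k (theta l q k f) := by
  have hl' : (0 : ℤ) < l := by exact_mod_cast hl
  have hq' : (4 : ℤ) ≤ q := by exact_mod_cast h4
  have hql : (q : ℤ) ∣ l := by exact_mod_cast hq
  have hqle : (q : ℤ) ≤ l := Int.le_of_dvd hl' hql
  have hlast : site l q (Fin.last k) = l * k + q := site_last
  have hlt : ∀ j : Fin (k + 1), j ≠ Fin.last k → site l q j + l ≤ l * k + q :=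
    fun j hj => site_lt hl hj
  refine ⟨theta_equiv f hsymm, fun κ m h => ?_, fun b => ?_, fun t => ?_⟩
  · obtain ⟨hm, hc⟩ := arith hq h4 hcong hdvd h
    by_cases hi : Function.Injective m
    · exact exists_perm hq hl h4 hm hc hi
    · exfalso
      unfold Function.Injective at hi
      push Not at hi
      obtain ⟨i, j, hij, hne⟩ := hi
      have h1 := theta_equiv (l := l) (q := q) f hsymm (Equiv.swap i j) κ m
      have h2 : (fun x => m (Equiv.swap i j x)) = m := by
        funext x
        rw [Equiv.swap_apply_def]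
        split_ifs with h5 h6
        · rw [h5, hij]
        · rw [h6, hij]
        · rfl
      rw [h2, Equiv.Perm.sign_swap hne, Equiv.swap_inv] at h1
      have h3 : Sum.map id (Equiv.swap i j) κ = κ ∨ ∃ t u, κ = Sum.inr t ∧ u ≠ t ∧ m u = m t := by
        rcases κ with b | t
        · exact Or.inl rfl
        · by_cases hti : t = i
          · exact Or.inr ⟨t, j, rfl, by rw [hti]; exact Ne.symm hne, by rw [hti, hij]⟩
          · by_cases htj : t = j
            · exact Or.inr ⟨t, i, rfl, by rw [htj]; exact hne, by rw [htj, hij]⟩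
            · left
              simp [Equiv.swap_apply_of_ne_of_ne hti htj]
      rcases h3 with h3 | ⟨t, u, rfl, hut, hmut⟩
      · rw [h3] at h1
        simp only [Units.val_neg, Units.val_one, Int.cast_neg, Int.cast_one, neg_mul,
          one_mul] at h1
        apply h
        have h5 : (2 : ℂ) * theta l q k f κ m = 0 := by linear_combination h1
        simpa using h5
      · obtain ⟨s, hs, σ, hw, hB⟩ := exists_term h
        have hσ : σ t = Fin.last k := by
          by_contra h5
          simp [wt, h5] at hw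
        have hmt : (l : ℤ) * k + 2 ≤ m t := by
          by_contra h5
          push Not at h5
          refine hB t (BB_PS_down hq h4 _ (by simp [ty]) _ _ _ _ ?_ h5)
          rw [hσ, hlast]
          linarith
        have hmt2 : m t = l * k + q := by
          obtain ⟨c, hc'⟩ := (hm t).2.2
          obtain ⟨d, hd⟩ := hql.mul_right (k : ℤ)
          have h5 := (hm t).2.1
          have h6 : m t - l * k = q * (c - d) := by rw [hc', hd]; ring
          have h7 : 0 < c - d := by
            by_contra hcon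
            have : c - d ≤ 0 := by omega
            nlinarith
          have h8 : c - d < 2 := by
            by_contra hcon
            have : 2 ≤ c - d := by omega
            nlinarith
          have h9 : c - d = 1 := by omega
          rw [h9] at h6
          linarith
        have hσu : σ u ≠ Fin.last k := by
          rw [← hσ]
          exact fun h5 => hut (σ.injective h5)
        refine hB u (BB_QS_up hq h4 _ (by simp [ty]) _ _ _ _ ?_ ?_)
        · have := hlt _ hσu
          linarith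
        · rw [hmut, hmt2]
          linarith
  · -- types P and Q agree at the sites
    rw [theta_apply, theta_apply]
    refine Finset.sum_congr rfl fun s _ => ?_
    congr 1
    unfold TH
    refine Finset.sum_congr rfl fun σ _ => ?_
    have hw : wt (Sum.inl b : Kap k) σ = wt (Sum.inl true : Kap k) σ := rfl
    rw [hw]
    congr 1
    by_cases hσ : σ (Fin.last k) = Fin.last k
    · refine Finset.prod_congr rfl fun i _ => ?_
      by_cases hi : i = Fin.last k
      · subst hi
        rw [hσ, hlast]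
        exact BB_agree_high hq h4 _ _ _ _ _ _ (by linarith) (by linarith)
      · have hσi : σ i ≠ Fin.last k := by
          rw [← hσ]
          exact fun h5 => hi (σ.injective h5)
        have h5 := hlt _ hi
        have h6 := hlt _ hσi
        exact BB_agree_low hq h4 _ _ _ _ _ _ (by linarith) (by linarith)
    · have hP : ∏ i, BB l q k (ty (Sum.inl true : Kap k)) (s (Sum.inl i)) (s (Sum.inr i))
          (site l q i) (site l q (σ i)) = 0 := by
        refine Finset.prod_eq_zero (Finset.mem_univ (σ⁻¹ (Fin.last k))) ?_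
        have h5 : σ⁻¹ (Fin.last k) ≠ Fin.last k := by
          intro h6
          apply hσ
          conv_lhs => rw [← h6]
          simp
        have h6 : σ (σ⁻¹ (Fin.last k)) = Fin.last k := by simp
        rw [h6, hlast]
        have h7 := hlt _ h5
        exact BB_P_down hq h4 _ _ _ _ (by linarith) (by linarith)
      rw [hP]
      cases b with
      | true => exact hP
      | false =>
        refine Finset.prod_eq_zero (Finset.mem_univ (Fin.last k)) ?_
        have h7 := hlt _ hσ
        rw [hlast]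
        exact BB_QS_up hq h4 _ (by simp [ty]) _ _ _ _ (by linarith) (by linarith)
  · by_cases ht : t = Fin.last k
    · subst ht
      rw [if_pos rfl, theta_apply, theta_apply]
      refine Finset.sum_congr rfl fun s _ => ?_
      congr 1
      unfold TH
      refine Finset.sum_congr rfl fun σ _ => ?_
      by_cases hσ : σ (Fin.last k) = Fin.last k
      · have hw : wt (Sum.inr (Fin.last k) : Kap k) σ = wt (Sum.inl true : Kap k) σ := by
          simp [wt, hσ]
        rw [hw]
        congr 1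
        refine Finset.prod_congr rfl fun i _ => ?_
        by_cases hi : i = Fin.last k
        · subst hi
          rw [hσ, hlast]
          exact BB_agree_high hq h4 _ _ _ _ _ _ (by linarith) (by linarith)
        · have hσi : σ i ≠ Fin.last k := by
            rw [← hσ]
            exact fun h5 => hi (σ.injective h5)
          have h5 := hlt _ hi
          have h6 := hlt _ hσi
          exact BB_agree_low hq h4 _ _ _ _ _ _ (by linarith) (by linarith)
      · have hw : wt (Sum.inr (Fin.last k) : Kap k) σ = 0 := by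
          simp [wt, hσ]
        have hP : ∏ i, BB l q k (ty (Sum.inl true : Kap k)) (s (Sum.inl i)) (s (Sum.inr i))
            (site l q i) (site l q (σ i)) = 0 := by
          refine Finset.prod_eq_zero (Finset.mem_univ (σ⁻¹ (Fin.last k))) ?_
          have h5 : σ⁻¹ (Fin.last k) ≠ Fin.last k := by
            intro h6
            apply hσ
            conv_lhs => rw [← h6]
            simp
          have h6 : σ (σ⁻¹ (Fin.last k)) = Fin.last k := by simp
          rw [h6, hlast]
          have h7 := hlt _ h5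
          exact BB_P_down hq h4 _ _ _ _ (by linarith) (by linarith)
        rw [hw, hP]
        simp
    · rw [if_neg ht]
      by_contra h
      obtain ⟨s, hs, σ, hw, hB⟩ := exists_term h
      have hσ : σ t = Fin.last k := by
        by_contra h5
        simp [wt, h5] at hw
      have h7 := hlt _ ht
      refine hB t (BB_PS_down hq h4 _ (by simp [ty]) _ _ _ _ ?_ (by linarith))
      rw [hσ, hlast]
      linarith

private lemma theta_one (hl : 0 < l) :
    theta l q k 1 (Sum.inl true) (site l q) = 1 := by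
  have h1 : (1 : MvPolynomial (Fin (k + 1) ⊕ Fin (k + 1)) ℂ).support = {0} := by
    rw [← C_1, C_apply, support_monomial, if_neg one_ne_zero]
  rw [theta_apply, h1, Finset.sum_singleton, coeff_zero_one, one_mul]
  unfold TH
  rw [Finset.sum_eq_single 1]
  · simp only [Equiv.Perm.sign_one, Units.val_one, Int.cast_one, wt, mul_one, one_mul]
    refine Finset.prod_eq_one fun i _ => ?_
    simp [BB]
  · intro σ _ hσ
    have h2 : ∃ i, σ i ≠ i := by
      by_contra h3
      push Not at h3
      exact hσ (Equiv.ext h3)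
    obtain ⟨i, hi⟩ := h2
    apply mul_eq_zero_of_right
    refine Finset.prod_eq_zero (Finset.mem_univ i) ?_
    have h3 : site l q i ≠ site l q (σ i) := fun h => hi (site_inj hl h).symm
    simp [BB, h3]
  · intro h; exact absurd (Finset.mem_univ _) h

end Scal

open Scal in
/-- T5 Scal.lean (import Model, Part). `f` has symmetric coefficients and satisfies the
congruences, then `θ f` is a multiple of the generator. -/
theorem theta_scalar (l q k : ℕ) (hq : q ∣ l) (hl : 0 < l) (h4 : 4 ≤ q)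
    (f : MvPolynomial (Fin (k + 1) ⊕ Fin (k + 1)) ℂ)
    (hsymm : ∀ (π : Equiv.Perm (Fin (k + 1))) (s : (Fin (k + 1) ⊕ Fin (k + 1)) →₀ ℕ),
      coeff (Finsupp.mapDomain (Sum.map π π) s) f = coeff s f)
    (hcong : ∀ s : (Fin (k + 1) ⊕ Fin (k + 1)) →₀ ℕ, coeff s f ≠ 0 → ∀ i j,
      (l : ℤ) ∣ ((s (Sum.inl i) : ℤ) - s (Sum.inr i)) - ((s (Sum.inl j) : ℤ) - s (Sum.inr j)))
    (hdvd : ∀ s : (Fin (k + 1) ⊕ Fin (k + 1)) →₀ ℕ, coeff s f ≠ 0 → ∀ i,
      (q : ℤ) ∣ (s (Sum.inl i) : ℤ) - s (Sum.inr i)) :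
    ∃ c : ℂ, theta l q k f = c • theta l q k 1 := by
  have h1 := good hq hl h4 f hsymm hcong hdvd
  have hone : ∀ s : (Fin (k + 1) ⊕ Fin (k + 1)) →₀ ℕ,
      coeff s (1 : MvPolynomial (Fin (k + 1) ⊕ Fin (k + 1)) ℂ) ≠ 0 → s = 0 := by
    intro s hs
    rw [coeff_one] at hs
    by_contra h
    exact hs (if_neg (Ne.symm h))
  have h2 := good (l := l) (q := q) hq hl h4 (1 : MvPolynomial (Fin (k + 1) ⊕ Fin (k + 1)) ℂ)
    (fun π s => by
      rw [coeff_one, coeff_one]
      have hinj : Function.Injective (Sum.map π π) := π.injective.sumMap π.injective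
      have h3 : (0 = Finsupp.mapDomain (Sum.map π π) s) ↔ (0 = s) := by
        constructor
        · intro h
          apply Finsupp.mapDomain_injective hinj
          rw [← h, Finsupp.mapDomain_zero]
        · intro h
          rw [← h, Finsupp.mapDomain_zero]
      simp only [h3])
    (fun s hs i j => by rw [hone s hs]; simp) (fun s hs i => by rw [hone s hs]; simp)
  exact ⟨_, h1.eq h2 (theta_one hl)⟩

end Pool.Agent.Lib.MP_623d7d_al
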