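import Mathlib
import Pool.Agent.Lib.MP_623d7d_al.Defs
import Pool.Agent.Lib.MP_623d7d_al.Model
import Pool.Agent.Lib.MP_623d7d_al.Step
import Pool.Agent.Lib.MP_623d7d_al.Filt
import Pool.Agent.Lib.MP_623d7d_al.Finite
import Pool.Agent.Lib.MP_623d7d_al.Inv
import Pool.Agent.Lib.MP_623d7d_al.Asym
import Pool.Agent.Lib.MP_623d7d_al.Scal
import Pool.Agent.Lib.MP_623d7d_al.Gen
import Pool.Agent.Lib.MP_623d7d_al.Conclude

set_option autoImplicit false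

open MvPolynomial

namespace Pool.Agent.Lib.MP_623d7d_al

theorem dim_lower (l m n : ℕ) (hm : 0 < m) (hml : m ∣ l) (h4 : 4 * m ≤ l) (hn : 1 ≤ n) :
    ((l * (n - 1) + 2 * (l / m) - 1) ^ n - (l * (n - 1) + l / m - 2) ^ n)
      + n * ((l / m - 3) * (l * (n - 1) + l / m - 2) ^ (n - 1))
      + (l * (n - 1) + 1) ^ n ≤ coinvDim (G l m n) := by
  have hl : 0 < l := by omega
  obtain ⟨k, rfl⟩ : ∃ k, n = k + 1 := ⟨n - 1, by omega⟩
  have hq : l / m ∣ l := Nat.div_dvd_of_dvd hml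
  have h4' : 4 ≤ l / m := (Nat.le_div_iff_mul_le hm).2 h4
  obtain ⟨ι, hι, v, hv, hli, hcard⟩ := exists_family l (l / m) k hq hl h4'
  have hfin : Module.Finite ℂ (MvPolynomial (Fin (k + 1) ⊕ Fin (k + 1)) ℂ ⧸
      Ideal.span {f : MvPolynomial (Fin (k + 1) ⊕ Fin (k + 1)) ℂ |
        (∀ g ∈ G l m (k + 1), act g f = f) ∧ ∃ d, 0 < d ∧ f.IsHomogeneous d}) :=
    finite_quot l m (k + 1) hl
  have := card_le_of_filtration
    {f : MvPolynomial (Fin (k + 1) ⊕ Fin (k + 1)) ℂ |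
      (∀ g ∈ G l m (k + 1), act g f = f) ∧ ∃ d, 0 < d ∧ f.IsHomogeneous d}
    (theta l (l / m) k) (Sum.elim (TX l (l / m)) (TY l (l / m)))
    (fun f hf => hf.2) (fun i p d hp => theta_step l (l / m) k hq h4' i p d hp)
    (fun f hf => theta_scalar l (l / m) k hq hl h4' f
      (fun π s => coeff_symm hl hf.1 π s)
      (fun s hs i j => coeff_cong hl hf.1 s hs i j)
      (fun s hs i => coeff_dvd hm hl hml hf.1 s hs i)) v hv hli
  rw [hcard] at this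
  exact this

theorem main (l m n : ℕ) (hm : 0 < m) (hml : m ∣ l) (h4 : 4 * m ≤ l) (hn : 2 ≤ n) :
    (1 + Real.exp (-4) * (((l / m : ℕ) : ℝ) - 3) ^ 2 / (4 * (l : ℝ) ^ 2))
      * ((l : ℝ) * ((n : ℝ) - 1) + 2 * ((l : ℝ) / m) - 1) ^ n ≤ (coinvDim (G l m n) : ℝ) :=
  asym l m n _ hm hml h4 hn (dim_lower l m n hm hml h4 (by omega))

end Pool.Agent.Lib.MP_623d7d_al
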